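import Pool.Agent.LibSphere41.Fam

/-!
Circle groups `circ a b` (isometries fixing the orthogonal complement of a plane), and the
projections of equivariant families to their invariant vectors.
-/

open scoped RealInnerProductSpace
open Set Filter Topology

namespace Sph41

variable {E : Type*} [NormedAddCommGroup E] [InnerProductSpace ℝ E]
variable {H : Type*} [NormedAddCommGroup H] [InnerProductSpace ℝ H]

/-- Isometries fixing every vector orthogonal to `a` and `b`. -/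
def circ (a b : E) : Subgroup (E ≃ₗᵢ[ℝ] E) := stab {x | ⟪a, x⟫ = 0 ∧ ⟪b, x⟫ = 0}

theorem circ_fix {a b : E} {k : E ≃ₗᵢ[ℝ] E} (hk : k ∈ circ a b) {x : E} (h1 : ⟪a, x⟫ = 0)
    (h2 : ⟪b, x⟫ = 0) : k x = x := hk x ⟨h1, h2⟩

theorem refl_mem_circ {a b w : E} (h : ∀ x : E, ⟪a, x⟫ = 0 → ⟪b, x⟫ = 0 → ⟪w, x⟫ = 0) :
    refl w ∈ circ a b := fun x hx => refl_of_inner (h x hx.1 hx.2)

theorem circ_inner {a b : E} {k : E ≃ₗᵢ[ℝ] E} (hk : k ∈ circ a b) {x y : E} (h1 : ⟪a, y⟫ = 0)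
    (h2 : ⟪b, y⟫ = 0) : ⟪y, k x⟫ = ⟪y, x⟫ := by
  conv_lhs => rw [← circ_fix hk h1 h2]
  exact k.inner_map_map _ _

theorem circ_span {a b : E} (ha : ‖a‖ = 1) (hb : ‖b‖ = 1) (hab : ⟪a, b⟫ = 0)
    {k : E ≃ₗᵢ[ℝ] E} (hk : k ∈ circ a b) :
    k a = ⟪a, k a⟫ • a + ⟪b, k a⟫ • b ∧ ⟪a, k a⟫ ^ 2 + ⟪b, k a⟫ ^ 2 = 1 := by
  have haa : ⟪a, a⟫ = 1 := by rw [real_inner_self_eq_norm_sq, ha]; norm_num
  have hbb : ⟪b, b⟫ = 1 := by rw [real_inner_self_eq_norm_sq, hb]; norm_num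
  have hba : ⟪b, a⟫ = 0 := by rw [real_inner_comm]; exact hab
  set r := k a - ⟪a, k a⟫ • a - ⟪b, k a⟫ • b with hr
  have h1 : ⟪a, r⟫ = 0 := by
    rw [hr, inner_sub_right, inner_sub_right, inner_smul_right, inner_smul_right, haa, hab]; ring
  have h2 : ⟪b, r⟫ = 0 := by
    rw [hr, inner_sub_right, inner_sub_right, inner_smul_right, inner_smul_right, hbb, hba]; ring
  have h3 : ⟪r, k a⟫ = 0 := by
    rw [circ_inner hk h1 h2, real_inner_comm]; exact h1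
  have h4 : ⟪r, r⟫ = 0 := by
    conv_lhs => rw [hr]
    rw [inner_sub_left, inner_sub_left, inner_smul_left, inner_smul_left, h1, h2,
      real_inner_comm, h3]
    simp
  have h5 : r = 0 := inner_self_eq_zero.1 h4
  have h6 : k a = ⟪a, k a⟫ • a + ⟪b, k a⟫ • b := by
    rw [hr] at h5
    have := sub_eq_zero.1 h5
    rw [← this]; abel
  refine ⟨h6, ?_⟩
  have h7 : ‖k a‖ ^ 2 = 1 := by rw [k.norm_map, ha]; norm_num
  have h8 : ‖k a‖ ^ 2 = ⟪k a, ⟪a, k a⟫ • a + ⟪b, k a⟫ • b⟫ := by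
    rw [← h6, real_inner_self_eq_norm_sq]
  rw [inner_add_right, inner_smul_right, inner_smul_right, real_inner_comm a,
    real_inner_comm b] at h8
  rw [← h7, h8]
  ring

/-- Norm of a sum of unit vectors with bounded inner products. -/
theorem norm_sum_sq_le {w : ℕ → H} {M : ℕ} {A : ℝ} (hA : 0 ≤ A)
    (h1 : ∀ i < M, ‖w i‖ = 1) (h2 : ∀ i < M, ∀ j < M, i ≠ j → ⟪w i, w j⟫ ≤ A) :
    ‖∑ i ∈ Finset.range M, w i‖ ^ 2 ≤ M + M ^ 2 * A := by
  rw [← real_inner_self_eq_norm_sq, sum_inner]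
  have h3 : ∀ i ∈ Finset.range M, ⟪w i, ∑ j ∈ Finset.range M, w j⟫ ≤ M * A + 1 := by
    intro i hi
    rw [inner_sum]
    have h4 : ∀ j ∈ Finset.range M, ⟪w i, w j⟫ ≤ A + (if i = j then 1 else 0) := by
      intro j hj
      rw [Finset.mem_range] at hi hj
      by_cases hij : i = j
      · rw [if_pos hij, ← hij, real_inner_self_eq_norm_sq, h1 i hi]
        linarith
      · rw [if_neg hij, add_zero]
        exact h2 i hi j hj hij
    refine (Finset.sum_le_sum h4).trans ?_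
    rw [Finset.sum_add_distrib, Finset.sum_const, Finset.card_range, nsmul_eq_mul,
      Finset.sum_ite_eq, if_pos hi]
  refine (Finset.sum_le_sum h3).trans ?_
  rw [Finset.sum_const, Finset.card_range, nsmul_eq_mul]
  apply le_of_eq
  ring

/-- The points on the circle used for averaging. -/
noncomputable def cx (M j : ℕ) : ℝ := (j + 1) / (2 * M + 2)

theorem cx_pos (M j : ℕ) : 0 < cx M j := by unfold cx; positivity

theorem cx_le {M j : ℕ} (h : j < M) : cx M j ≤ 1 / 2 := by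
  unfold cx
  rw [div_le_div_iff₀ (by positivity) (by norm_num)]
  have : ((j : ℝ) + 1) ≤ M := by exact_mod_cast h
  linarith

theorem cx_inj {M i j : ℕ} (h : cx M i = cx M j) : i = j := by
  unfold cx at h
  have h0 : (0 : ℝ) < 2 * M + 2 := by positivity
  rw [div_left_inj' h0.ne'] at h
  exact_mod_cast (add_right_cancel h : (i : ℝ) = j)

noncomputable def pt (u a b : E) (ρ x : ℝ) : E := u + ρ • (x • a + √(1 - x ^ 2) • b)

section pts

variable {u a b : E} {ρ : ℝ} (ha : ‖a‖ = 1) (hb : ‖b‖ = 1) (hab : ⟪a, b⟫ = 0)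
  (hua : ⟪u, a⟫ = 0) (hub : ⟪u, b⟫ = 0)

include ha hb hab hua hub

theorem dir_norm {x : ℝ} (hx : x ^ 2 ≤ 1) : ‖x • a + √(1 - x ^ 2) • b‖ = 1 := by
  have haa : ⟪a, a⟫ = 1 := by rw [real_inner_self_eq_norm_sq, ha]; norm_num
  have hbb : ⟪b, b⟫ = 1 := by rw [real_inner_self_eq_norm_sq, hb]; norm_num
  have hba : ⟪b, a⟫ = 0 := by rw [real_inner_comm]; exact hab
  have h1 : ‖x • a + √(1 - x ^ 2) • b‖ ^ 2 = 1 := by
    rw [← real_inner_self_eq_norm_sq]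
    simp only [inner_add_left, inner_add_right, inner_smul_left, inner_smul_right, haa, hbb, hab,
      hba, conj_trivial]
    have := Real.sq_sqrt (show (0 : ℝ) ≤ 1 - x ^ 2 by linarith)
    nlinarith
  have h0 := norm_nonneg (x • a + √(1 - x ^ 2) • b)
  nlinarith

/-- The element of the circle group moving `u + ρ a` to `pt u a b ρ x`. -/
theorem exists_circ_pt {x : ℝ} (hx : x ^ 2 ≤ 1) :
    ∃ k ∈ circ a b, k (u + ρ • a) = pt u a b ρ x := by
  refine ⟨refl (a - (x • a + √(1 - x ^ 2) • b)), ?_, ?_⟩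
  · apply refl_mem_circ
    intro z h1 h2
    simp only [inner_sub_left, inner_add_left, inner_smul_left, h1, h2]
    simp
  · rw [map_add, map_smul, refl_sub (ha.trans (dir_norm ha hb hab hua hub hx).symm), refl_of_inner]
    · rfl
    · rw [real_inner_comm]
      simp only [inner_sub_right, inner_add_right, inner_smul_right, hua, hub]
      simp

theorem inner_pt {x : ℝ} : ⟪pt u a b ρ x, a⟫ = ρ * x := by
  have haa : ⟪a, a⟫ = 1 := by rw [real_inner_self_eq_norm_sq, ha]; norm_num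
  have hba : ⟪b, a⟫ = 0 := by rw [real_inner_comm]; exact hab
  unfold pt
  simp only [inner_add_left, inner_smul_left, haa, hba, hua, conj_trivial]
  ring

theorem inner_pt_base {x : ℝ} : ⟪pt u a b ρ x, u + ρ • a⟫ = ‖u‖ ^ 2 + ρ ^ 2 * x := by
  have haa : ⟪a, a⟫ = 1 := by rw [real_inner_self_eq_norm_sq, ha]; norm_num
  have hba : ⟪b, a⟫ = 0 := by rw [real_inner_comm]; exact hab
  have hau : ⟪a, u⟫ = 0 := by rw [real_inner_comm]; exact hua
  have hbu : ⟪b, u⟫ = 0 := by rw [real_inner_comm]; exact hub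
  rw [← real_inner_self_eq_norm_sq]
  unfold pt
  simp only [inner_add_left, inner_add_right, inner_smul_left, inner_smul_right, haa, hba, hua,
    hau, hbu, conj_trivial]
  ring

end pts

variable {U : (E ≃ₗᵢ[ℝ] E) →* (H →ₗᵢ[ℝ] H)} [CompleteSpace H]

section avg

variable {u a b : E} {ρ : ℝ} (ha : ‖a‖ = 1) (hb : ‖b‖ = 1) (hab : ⟪a, b⟫ = 0)
  (hua : ⟪u, a⟫ = 0) (hub : ⟪u, b⟫ = 0) (hρ : 0 < ρ) (hp : ‖u + ρ • a‖ = 1)
  {v : E → H} (hv : Fam U v) {A : ℝ} (hA0 : 0 ≤ A)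
  (hA : ∀ x y : E, ‖x‖ = 1 → ‖y‖ = 1 → ⟪x, y⟫ ≠ 1 → ⟪x, y⟫ ≠ -1 → ⟪v x, v y⟫ ≤ A)

include ha hb hab hua hub hp hv

theorem norm_pt {x : ℝ} (hx : x ^ 2 ≤ 1) : ‖pt u a b ρ x‖ = 1 := by
  obtain ⟨k, _, hk⟩ := exists_circ_pt (ρ := ρ) ha hb hab hua hub hx
  rw [← hk, k.norm_map, hp]

theorem P_inner_pt {x : ℝ} (hx : x ^ 2 ≤ 1) :
    ⟪P U (circ a b) (v (u + ρ • a)), v (pt u a b ρ x)⟫
      = ‖P U (circ a b) (v (u + ρ • a))‖ ^ 2 := by
  obtain ⟨k, hkc, hk⟩ := exists_circ_pt (ρ := ρ) ha hb hab hua hub hx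
  rw [← hk, ← hv.eqv k _ hp]
  conv_lhs => rw [← P_fix U (circ a b) (v (u + ρ • a)) hkc]
  rw [(U k).inner_map_map, P_norm_sq]

include hρ hA0 hA

theorem sum_sq_le (M : ℕ) :
    ‖∑ j ∈ Finset.range M, v (pt u a b ρ (cx M j))‖ ^ 2 ≤ M + M ^ 2 * A := by
  have hx : ∀ j < M, (cx M j) ^ 2 ≤ 1 := fun j hj => by
    have h1 := cx_pos M j
    have h2 := cx_le hj
    nlinarith
  apply norm_sum_sq_le hA0
  · intro i hi
    exact hv.nrm _ (norm_pt ha hb hab hua hub hp hv (hx i hi))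
  · intro i hi j hj hij
    have n1 := norm_pt ha hb hab hua hub hp hv (hx i hi)
    have n2 := norm_pt ha hb hab hua hub hp hv (hx j hj)
    have i1 := inner_pt (ρ := ρ) (x := cx M i) ha hb hab hua hub
    have i2 := inner_pt (ρ := ρ) (x := cx M j) ha hb hab hua hub
    apply hA _ _ n1 n2
    · intro h
      rw [inner_eq_one_iff_of_norm_eq_one n1 n2] at h
      rw [h, i2] at i1
      exact hij (cx_inj (mul_left_cancel₀ hρ.ne' i1)).symm
    · intro h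
      rw [inner_eq_neg_one_iff_of_norm_eq_one n1 n2] at h
      rw [h, inner_neg_left, i2] at i1
      have h1 := mul_pos hρ (cx_pos M i)
      have h2 := mul_pos hρ (cx_pos M j)
      linarith

theorem P_sq_le' {M : ℕ} (hM : 0 < M) :
    ‖P U (circ a b) (v (u + ρ • a))‖ ^ 2 ≤ 1 / M + A := by
  set X := P U (circ a b) (v (u + ρ • a)) with hX
  have hx : ∀ j < M, (cx M j) ^ 2 ≤ 1 := fun j hj => by
    have h1 := cx_pos M j
    have h2 := cx_le hj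
    nlinarith
  have h1 : ⟪X, ∑ j ∈ Finset.range M, v (pt u a b ρ (cx M j))⟫ = M * ‖X‖ ^ 2 := by
    rw [inner_sum, Finset.sum_congr rfl (fun j hj => P_inner_pt ha hb hab hua hub hp hv
      (hx j (Finset.mem_range.1 hj))), Finset.sum_const, Finset.card_range, nsmul_eq_mul]
  have h2 := real_inner_le_norm X (∑ j ∈ Finset.range M, v (pt u a b ρ (cx M j)))
  have h3 := sum_sq_le ha hb hab hua hub hρ hp hv hA0 hA M
  rw [h1] at h2
  have hM' : (0 : ℝ) < M := by exact_mod_cast hM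
  have h4 : (M * ‖X‖ ^ 2) ^ 2 ≤ ‖X‖ ^ 2 * (M + M ^ 2 * A) := by
    calc (M * ‖X‖ ^ 2) ^ 2
        ≤ (‖X‖ * ‖∑ j ∈ Finset.range M, v (pt u a b ρ (cx M j))‖) ^ 2 :=
          pow_le_pow_left₀ (by positivity) h2 2
      _ = ‖X‖ ^ 2 * ‖∑ j ∈ Finset.range M, v (pt u a b ρ (cx M j))‖ ^ 2 := by ring
      _ ≤ _ := by gcongr
  by_cases hX0 : ‖X‖ ^ 2 = 0
  · rw [hX0]; positivity
  · have hXp : 0 < ‖X‖ ^ 2 := lt_of_le_of_ne (by positivity) (Ne.symm hX0)
    have h5 : (M : ℝ) ^ 2 * ‖X‖ ^ 2 ≤ M + M ^ 2 * A := by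
      have : ‖X‖ ^ 2 * (M ^ 2 * ‖X‖ ^ 2) ≤ ‖X‖ ^ 2 * (M + M ^ 2 * A) := by
        calc ‖X‖ ^ 2 * (M ^ 2 * ‖X‖ ^ 2) = (M * ‖X‖ ^ 2) ^ 2 := by ring
          _ ≤ _ := h4
      exact le_of_mul_le_mul_left this hXp
    have h6 : (M : ℝ) ^ 2 * ‖X‖ ^ 2 ≤ M ^ 2 * (1 / M + A) := by
      calc (M : ℝ) ^ 2 * ‖X‖ ^ 2 ≤ M + M ^ 2 * A := h5
        _ = M ^ 2 * (1 / M + A) := by field_simp
    exact le_of_mul_le_mul_left h6 (by positivity)

theorem P_sq_le : ‖P U (circ a b) (v (u + ρ • a))‖ ^ 2 ≤ A := by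
  apply le_of_forall_pos_le_add
  intro ε hε
  obtain ⟨M, hM⟩ := exists_nat_one_div_lt hε
  have h := P_sq_le' ha hb hab hua hub hρ hp hv hA0 hA (Nat.succ_pos M)
  push_cast at h
  linarith

/-- If the projection is almost extremal, then almost all chords are almost extremal. -/
theorem sum_near {δ : ℝ} {M : ℕ} (hM : 0 < M)
    (hδ : A - 2 * δ ≤ ‖P U (circ a b) (v (u + ρ • a))‖ ^ 2) :
    ∑ j ∈ Finset.range M, (A - ⟪v (pt u a b ρ (cx M j)), v (u + ρ • a)⟫)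
      ≤ M * (2 * δ + √(1 / M + 2 * δ)) := by
  set X := P U (circ a b) (v (u + ρ • a)) with hX
  set S := ∑ j ∈ Finset.range M, v (pt u a b ρ (cx M j)) with hS
  have hM' : (0 : ℝ) < M := by exact_mod_cast hM
  have hx : ∀ j < M, (cx M j) ^ 2 ≤ 1 := fun j hj => by
    have h1 := cx_pos M j
    have h2 := cx_le hj
    nlinarith
  have h1 : ⟪X, S⟫ = M * ‖X‖ ^ 2 := by
    rw [hS, inner_sum, Finset.sum_congr rfl (fun j hj => P_inner_pt ha hb hab hua hub hp hv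
      (hx j (Finset.mem_range.1 hj))), Finset.sum_const, Finset.card_range, nsmul_eq_mul]
  have h3 := sum_sq_le ha hb hab hua hub hρ hp hv hA0 hA M
  have h4 : ‖S - (M : ℝ) • X‖ ^ 2 ≤ M ^ 2 * (1 / M + 2 * δ) := by
    rw [norm_sub_sq_real, inner_smul_right, real_inner_comm, h1, norm_smul, mul_pow,
      Real.norm_of_nonneg hM'.le]
    calc ‖S‖ ^ 2 - 2 * (↑M * (↑M * ‖X‖ ^ 2)) + ↑M ^ 2 * ‖X‖ ^ 2
        = ‖S‖ ^ 2 - M ^ 2 * ‖X‖ ^ 2 := by ring
      _ ≤ (M + M ^ 2 * A) - M ^ 2 * (A - 2 * δ) := by gcongr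
      _ = M ^ 2 * (1 / M + 2 * δ) := by field_simp; ring
  have h5 : ‖S - (M : ℝ) • X‖ ≤ M * √(1 / M + 2 * δ) := by
    have h6 : 0 ≤ 1 / M + 2 * δ := by
      have := (sq_nonneg ‖S - (M : ℝ) • X‖).trans h4
      exact nonneg_of_mul_nonneg_right this (by positivity)
    have h7 : ‖S - (M : ℝ) • X‖ ^ 2 ≤ (M * √(1 / M + 2 * δ)) ^ 2 := by
      rw [mul_pow, Real.sq_sqrt h6]; exact h4
    have h8 := abs_le_of_sq_le_sq h7 (by positivity)
    rwa [abs_of_nonneg (norm_nonneg _)] at h8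
  rw [Finset.sum_sub_distrib, Finset.sum_const, Finset.card_range, nsmul_eq_mul, ← sum_inner,
    ← hS]
  have h6 : ⟪S, v (u + ρ • a)⟫ = M * ‖X‖ ^ 2 + ⟪S - (M : ℝ) • X, v (u + ρ • a)⟫ := by
    rw [inner_sub_left, inner_smul_left, hX, ← P_norm_sq]
    simp
  have h7 := neg_abs_le ⟪S - (M : ℝ) • X, v (u + ρ • a)⟫
  have h8 := abs_real_inner_le_norm (S - (M : ℝ) • X) (v (u + ρ • a))
  rw [hv.nrm _ hp, mul_one] at h8
  rw [h6]
  nlinarith

end avg

end Sph41
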