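import Pool.Agent.LibSphere41.Ortho

/-!
The subspace of continuous vectors and its orthogonal complement.
-/

open scoped RealInnerProductSpace
open Set Filter Topology

namespace Sph41

variable {E : Type*} [NormedAddCommGroup E] [InnerProductSpace ℝ E]
variable {H : Type*} [NormedAddCommGroup H] [InnerProductSpace ℝ H]
variable (U : (E ≃ₗᵢ[ℝ] E) →* (H →ₗᵢ[ℝ] H))

/-- The continuous vectors. -/
def contSub : Submodule ℝ H where
  carrier := {w | IsCont U ball w}
  zero_mem' := by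
    intro ε hε
    refine ⟨1, one_pos, fun g _ => ?_⟩
    rw [map_zero, sub_zero, norm_zero]
    exact hε.le
  add_mem' := by
    intro x y hx hy ε hε
    obtain ⟨δ1, hδ1, h1⟩ := hx (ε / 2) (by positivity)
    obtain ⟨δ2, hδ2, h2⟩ := hy (ε / 2) (by positivity)
    refine ⟨min δ1 δ2, lt_min hδ1 hδ2, fun g hg => ?_⟩
    have e : U g (x + y) - (x + y) = (U g x - x) + (U g y - y) := by rw [map_add]; abel
    rw [e]
    have h3 := h1 g (ball_mono (min_le_left _ _) hg)
    have h4 := h2 g (ball_mono (min_le_right _ _) hg)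
    have h5 := norm_add_le (U g x - x) (U g y - y)
    linarith
  smul_mem' := by
    intro c x hx ε hε
    obtain ⟨δ, hδ, h⟩ := hx (ε / (|c| + 1)) (by positivity)
    refine ⟨δ, hδ, fun g hg => ?_⟩
    have e : U g (c • x) - c • x = c • (U g x - x) := by rw [map_smul, smul_sub]
    rw [e, norm_smul, Real.norm_eq_abs]
    have h1 := h g hg
    calc |c| * ‖U g x - x‖ ≤ |c| * (ε / (|c| + 1)) := by gcongr
      _ ≤ (|c| + 1) * (ε / (|c| + 1)) := by
          apply mul_le_mul_of_nonneg_right _ (by positivity)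
          linarith
      _ = ε := by field_simp

theorem mem_contSub {w : H} : w ∈ contSub U ↔ IsCont U ball w := Iff.rfl

theorem isClosed_contSub : IsClosed (contSub U : Set H) := by
  rw [← closure_subset_iff_isClosed]
  intro w hw ε hε
  obtain ⟨w', hw', hd⟩ := Metric.mem_closure_iff.1 hw (ε / 3) (by positivity)
  obtain ⟨δ, hδ, h⟩ := hw' (ε / 3) (by positivity)
  refine ⟨δ, hδ, fun g hg => ?_⟩
  rw [dist_eq_norm] at hd
  have e : U g w - w = U g (w - w') + (U g w' - w') + (w' - w) := by rw [map_sub]; abel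
  rw [e]
  have h1 : ‖U g (w - w')‖ < ε / 3 := by rw [(U g).norm_map]; exact hd
  have h2 : ‖w' - w‖ < ε / 3 := by rw [norm_sub_rev]; exact hd
  have h3 := h g hg
  have h4 := norm_add₃_le (a := U g (w - w')) (b := U g w' - w') (c := w' - w)
  linarith

theorem U_contSub (h : E ≃ₗᵢ[ℝ] E) {w : H} (hw : w ∈ contSub U) : U h w ∈ contSub U := by
  intro ε hε
  obtain ⟨δ, hδ, h1⟩ := hw ε hε
  refine ⟨δ, hδ, fun g hg => ?_⟩
  have h2 := h1 _ (ball_conj h hg)
  rw [← (U h).norm_map, map_sub, ← U_mul] at h2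
  have e : h * (h⁻¹ * g * h) = g * h := by group
  rw [e, U_mul] at h2
  exact h2

theorem U_contSub_orth (h : E ≃ₗᵢ[ℝ] E) {w : H} (hw : w ∈ (contSub U)ᗮ) :
    U h w ∈ (contSub U)ᗮ := by
  rw [Submodule.mem_orthogonal] at hw ⊢
  intro c hc
  have h1 := hw (U h⁻¹ c) (U_contSub U h⁻¹ hc)
  rw [real_inner_comm, inner_U_left, real_inner_comm]
  exact h1

/-- The representation on the orthogonal complement of the continuous vectors. -/
def resRep : (E ≃ₗᵢ[ℝ] E) →* ((contSub U)ᗮ →ₗᵢ[ℝ] (contSub U)ᗮ) where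
  toFun g :=
    { toFun := fun w => ⟨U g w, U_contSub_orth U g w.2⟩
      map_add' := fun x y => by
        ext; exact map_add (U g) _ _
      map_smul' := fun c x => by
        ext; exact map_smul (U g) _ _
      norm_map' := fun x => (U g).norm_map x }
  map_one' := by
    ext x
    exact congrArg (fun z : H => z) (U_one U (x : H))
  map_mul' g h := by
    ext x
    exact U_mul U g h (x : H)

theorem resRep_coe (g : E ≃ₗᵢ[ℝ] E) (w : (contSub U)ᗮ) : (resRep U g w : H) = U g w := rfl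

theorem resRep_nc (w : (contSub U)ᗮ) (hw : IsCont (resRep U) ball w) : w = 0 := by
  have h1 : (w : H) ∈ contSub U := hw
  have h2 := (Submodule.mem_orthogonal _ _).1 w.2 _ h1
  exact Subtype.ext (inner_self_eq_zero.1 h2)

variable [CompleteSpace H]

/-- Orthogonality for equivariant families of arbitrary norm. -/
theorem eqv_orth {n : ℕ} (hn : 5 ≤ n) (b : OrthonormalBasis (Fin n) ℝ E)
    {U : (E ≃ₗᵢ[ℝ] E) →* (H →ₗᵢ[ℝ] H)}
    (hNC : ∀ w : H, IsCont U ball w → w = 0) {v : E → H}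
    (hv : ∀ (g : E ≃ₗᵢ[ℝ] E) (x : E), ‖x‖ = 1 → U g (v x) = v (g x))
    {x y : E} (hx : ‖x‖ = 1) (hy : ‖y‖ = 1) (h1 : ⟪x, y⟫ ≠ 1) (h2 : ⟪x, y⟫ ≠ -1) :
    ⟪v x, v y⟫ = 0 := by
  by_cases h0 : v x = 0
  · rw [h0, inner_zero_left]
  · have hn0 : ‖v x‖ ≠ 0 := norm_ne_zero_iff.2 h0
    have hF : Fam U (fun z => ‖v x‖⁻¹ • v z) :=
      ⟨fun g z hz => by rw [map_smul, hv g z hz], fun z hz => by
        have h3 : ‖v z‖ = ‖v x‖ := by
          have h4 : refl (x - z) x = z := refl_sub (hx.trans hz.symm)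
          rw [← h4, ← hv _ x hx, LinearIsometry.norm_map]
        rw [norm_smul, norm_inv, norm_norm, h3, inv_mul_cancel₀ hn0]⟩
    have h3 := fam_orth hn b hNC hF hF hx hy h1 h2
    rw [inner_smul_left, inner_smul_right] at h3
    simp only [conj_trivial, mul_eq_zero, inv_eq_zero, hn0, false_or] at h3
    exact h3

/-- The decomposition of an equivariant family. -/
theorem decomp {n : ℕ} (hn : 5 ≤ n) (b : OrthonormalBasis (Fin n) ℝ E) {v : E → H}
    (hv : ∀ (g : E ≃ₗᵢ[ℝ] E) (x : E), ‖x‖ = 1 → U g (v x) = v (g x)) :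
    ∃ c s : E → H, (∀ x y : E, ⟪v x, v y⟫ = ⟪c x, c y⟫ + ⟪s x, s y⟫) ∧
      (∀ (g : E ≃ₗᵢ[ℝ] E) (x : E), ‖x‖ = 1 → U g (c x) = c (g x)) ∧
      (∀ (g : E ≃ₗᵢ[ℝ] E) (x : E), ‖x‖ = 1 → U g (s x) = s (g x)) ∧
      (∀ x, IsCont U ball (c x)) ∧
      (∀ x y : E, ‖x‖ = 1 → ‖y‖ = 1 → ⟪x, y⟫ ≠ 1 → ⟪x, y⟫ ≠ -1 → ⟪s x, s y⟫ = 0) := by
  have : CompleteSpace (contSub U) := (isClosed_contSub U).completeSpace_coe
  have hex : ∀ x : E, ∃ c ∈ contSub U, ∃ s ∈ (contSub U)ᗮ, v x = c + s := fun x =>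
    Submodule.exists_add_mem_mem_orthogonal (K := contSub U) (v x)
  choose c hc s hs hcs using hex
  have horth : ∀ x y, ⟪c x, s y⟫ = 0 := fun x y => (Submodule.mem_orthogonal _ _).1 (hs y) _ (hc x)
  have horth' : ∀ x y, ⟪s x, c y⟫ = 0 := fun x y => by rw [real_inner_comm]; exact horth y x
  have hceq : ∀ (g : E ≃ₗᵢ[ℝ] E) (x : E), ‖x‖ = 1 → U g (c x) = c (g x) ∧ U g (s x) = s (g x) := by
    intro g x hx
    have h1 := hv g x hx
    rw [hcs x, hcs (g x), map_add] at h1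
    have h2 : U g (c x) - c (g x) = s (g x) - U g (s x) := by
      rw [sub_eq_sub_iff_add_eq_add, h1]; abel
    have h3 : U g (c x) - c (g x) ∈ contSub U := Submodule.sub_mem _ (U_contSub U g (hc x)) (hc _)
    have h4 : U g (c x) - c (g x) ∈ (contSub U)ᗮ := by
      rw [h2]
      exact Submodule.sub_mem _ (hs _) (U_contSub_orth U g (hs x))
    have h5 : U g (c x) - c (g x) = 0 :=
      inner_self_eq_zero.1 ((Submodule.mem_orthogonal _ _).1 h4 _ h3)
    refine ⟨sub_eq_zero.1 h5, ?_⟩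
    rw [h5] at h2
    exact (sub_eq_zero.1 h2.symm).symm
  refine ⟨c, s, fun x y => ?_, fun g x hx => (hceq g x hx).1, fun g x hx => (hceq g x hx).2,
    fun x => hc x, fun x y hx hy h1 h2 => ?_⟩
  · rw [hcs x, hcs y, inner_add_left, inner_add_right, inner_add_right, horth, horth']
    ring
  · have h3 := eqv_orth (U := resRep U) hn b (fun w hw => resRep_nc U w hw)
      (v := fun x => (⟨s x, hs x⟩ : (contSub U)ᗮ))
      (fun g x hx => Subtype.ext ((hceq g x hx).2)) hx hy h1 h2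
    exact h3

end Sph41
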