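import Mathlib

/-!
Reflections of a real inner product space, transitivity on pairs of vectors, and small isometries.
-/

open scoped RealInnerProductSpace
open Set

namespace Sph41

variable {E : Type*} [NormedAddCommGroup E] [InnerProductSpace ℝ E]

/-- The reflection in the hyperplane orthogonal to `w`. -/
noncomputable def refl (w : E) : E ≃ₗᵢ[ℝ] E := (ℝ ∙ w)ᗮ.reflection

theorem refl_apply (w x : E) : refl w x = x - (2 * (⟪w, x⟫ / ‖w‖ ^ 2)) • w := by
  unfold refl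
  rw [Submodule.reflection_orthogonal_apply, Submodule.reflection_singleton_apply]
  simp only [RCLike.ofReal_real_eq_id, id_eq, neg_sub, mul_smul, two_smul, ]

theorem refl_of_inner {w x : E} (h : ⟪w, x⟫ = 0) : refl w x = x := by
  rw [refl_apply, h]; simp

theorem refl_sub {v w : E} (h : ‖v‖ = ‖w‖) : refl (v - w) v = w :=
  Submodule.reflection_sub h

theorem refl_refl (w x : E) : refl w (refl w x) = x := by
  unfold refl
  exact Submodule.reflection_reflection _ _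

theorem refl_mul_self (w : E) : refl w * refl w = 1 := by
  ext x
  exact refl_refl w x

theorem refl_self (w : E) : refl w w = -w := by
  unfold refl
  exact Submodule.reflection_orthogonalComplement_singleton_eq_neg w

/-- Isometries act transitively on pairs of vectors with given norms and inner product. -/
theorem exists_pair {p q p' q' : E} (hp : ‖p‖ = ‖p'‖) (hq : ‖q‖ = ‖q'‖)
    (h : ⟪p, q⟫ = ⟪p', q'⟫) : ∃ g : E ≃ₗᵢ[ℝ] E, g p = p' ∧ g q = q' := by
  set g1 := refl (p - p') with hg1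
  have h1 : g1 p = p' := refl_sub hp
  have h2 : ⟪p', g1 q⟫ = ⟪p', q'⟫ := by
    rw [← h, ← g1.inner_map_map p q, h1]
  have h3 : ‖g1 q‖ = ‖q'‖ := by rw [g1.norm_map, hq]
  refine ⟨refl (g1 q - q') * g1, ?_, ?_⟩
  · change refl (g1 q - q') (g1 p) = p'
    rw [h1]
    apply refl_of_inner
    rw [real_inner_comm, inner_sub_right, h2, sub_self]
  · exact refl_sub h3

/-- A unit vector with prescribed equal inner products with two unit vectors. -/
theorem exists_third {p p' z : E} {t : ℝ} (hp : ‖p‖ = 1) (hp' : ‖p'‖ = 1) (hz : ‖z‖ = 1)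
    (hz1 : ⟪p, z⟫ = 0) (hz2 : ⟪p', z⟫ = 0) (hc0 : 0 < 1 + ⟪p, p'⟫)
    (hc : 2 * t ^ 2 ≤ 1 + ⟪p, p'⟫) : ∃ q : E, ‖q‖ = 1 ∧ ⟪p, q⟫ = t ∧ ⟪p', q⟫ = t := by
  obtain ⟨c, hcc⟩ : ∃ c : ℝ, c = ⟪p, p'⟫ := ⟨_, rfl⟩
  rw [← hcc] at hc hc0
  obtain ⟨α, hα⟩ : ∃ α : ℝ, α * (1 + c) = t := ⟨t / (1 + c), by field_simp⟩
  have hαt : 2 * α * t * (1 + c) = 2 * t ^ 2 := by
    calc 2 * α * t * (1 + c) = 2 * t * (α * (1 + c)) := by ring
      _ = 2 * t ^ 2 := by rw [hα]; ring
  have hle : 2 * α * t ≤ 1 := by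
    by_contra h
    push Not at h
    have := mul_lt_mul_of_pos_right h hc0
    linarith
  obtain ⟨β, hβ⟩ : ∃ β : ℝ, β ^ 2 = 1 - 2 * α * t := ⟨_, Real.sq_sqrt (by linarith)⟩
  have hpp : ⟪p, p⟫ = 1 := by rw [real_inner_self_eq_norm_sq, hp]; norm_num
  have hp'p' : ⟪p', p'⟫ = 1 := by rw [real_inner_self_eq_norm_sq, hp']; norm_num
  have hzz : ⟪z, z⟫ = 1 := by rw [real_inner_self_eq_norm_sq, hz]; norm_num
  have hzp : ⟪z, p⟫ = 0 := by rw [real_inner_comm]; exact hz1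
  have hzp' : ⟪z, p'⟫ = 0 := by rw [real_inner_comm]; exact hz2
  have hcc' : ⟪p', p⟫ = c := by rw [real_inner_comm, ← hcc]
  refine ⟨α • (p + p') + β • z, ?_, ?_, ?_⟩
  · have : ‖α • (p + p') + β • z‖ ^ 2 = 1 := by
      rw [← real_inner_self_eq_norm_sq]
      simp only [inner_add_right, inner_add_left, inner_smul_left, inner_smul_right, hz1, hz2,
        hzp, hzp', hpp, hp'p', hzz, hcc', ← hcc, conj_trivial]
      calc α * (α * (1 + c) + β * 0 + (α * (c + 1) + β * 0)) + β * (α * (0 + 0) + β * 1)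
          = 2 * α * (α * (1 + c)) + β ^ 2 := by ring
        _ = 1 := by rw [hα, hβ]; ring
    have h0 := norm_nonneg (α • (p + p') + β • z)
    nlinarith
  · simp only [inner_add_right, inner_smul_right, hz1, hpp, ← hcc]
    linarith
  · simp only [inner_add_right, inner_smul_right, hz2, hp'p', hcc']
    linarith

/-- Isometries which move every vector by at most `δ` times its norm. -/
def ball (δ : ℝ) : Set (E ≃ₗᵢ[ℝ] E) := {g | ∀ x, ‖g x - x‖ ≤ δ * ‖x‖}

theorem one_mem_ball {δ : ℝ} (hδ : 0 < δ) : (1 : E ≃ₗᵢ[ℝ] E) ∈ ball (E := E) δ := by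
  intro x
  simp only [LinearIsometryEquiv.coe_one, id_eq, sub_self, norm_zero]
  positivity

theorem ball_mono {δ δ' : ℝ} (h : δ ≤ δ') : ball (E := E) δ ⊆ ball δ' := by
  intro g hg x
  exact (hg x).trans (mul_le_mul_of_nonneg_right h (norm_nonneg _))

theorem ball_mul {δ : ℝ} {g h : E ≃ₗᵢ[ℝ] E} (hg : g ∈ ball (E := E) (δ / 2))
    (hh : h ∈ ball (E := E) (δ / 2)) : g * h ∈ ball (E := E) δ := by
  intro x
  have h1 : (g * h) x - x = g (h x - x) + (g x - x) := by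
    rw [map_sub]
    change g (h x) - x = _
    abel
  rw [h1]
  calc ‖g (h x - x) + (g x - x)‖ ≤ ‖g (h x - x)‖ + ‖g x - x‖ := norm_add_le _ _
    _ = ‖h x - x‖ + ‖g x - x‖ := by rw [g.norm_map]
    _ ≤ δ / 2 * ‖x‖ + δ / 2 * ‖x‖ := add_le_add (hh x) (hg x)
    _ = δ * ‖x‖ := by ring

theorem ball_conj {δ : ℝ} {g : E ≃ₗᵢ[ℝ] E} (h : E ≃ₗᵢ[ℝ] E) (hg : g ∈ ball (E := E) δ) :
    h⁻¹ * g * h ∈ ball (E := E) δ := by
  intro x
  have h1 : (h⁻¹ * g * h) x - x = h⁻¹ (g (h x) - h x) := by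
    rw [map_sub]
    change h⁻¹ (g (h x)) - x = h⁻¹ (g (h x)) - (h⁻¹ * h) x
    rw [inv_mul_cancel]
    rfl
  rw [h1, LinearIsometryEquiv.norm_map]
  have := hg (h x)
  rwa [h.norm_map] at this

/-- The subgroup of isometries fixing every vector of a set. -/
def stab (S : Set E) : Subgroup (E ≃ₗᵢ[ℝ] E) where
  carrier := {g | ∀ x ∈ S, g x = x}
  mul_mem' := by
    intro g h hg hh x hx
    change g (h x) = x
    rw [hh x hx, hg x hx]
  one_mem' := fun _ _ => rfl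
  inv_mem' := by
    intro g hg x hx
    have h1 := hg x hx
    conv_lhs => rw [← h1]
    change (g⁻¹ * g) x = x
    rw [inv_mul_cancel]
    rfl

theorem mem_stab {S : Set E} {g : E ≃ₗᵢ[ℝ] E} : g ∈ stab S ↔ ∀ x ∈ S, g x = x := Iff.rfl

theorem inv_apply_self (g : E ≃ₗᵢ[ℝ] E) (x : E) : g⁻¹ (g x) = x := by
  change (g⁻¹ * g) x = x
  rw [inv_mul_cancel]; rfl

theorem apply_inv_self (g : E ≃ₗᵢ[ℝ] E) (x : E) : g (g⁻¹ x) = x := by
  change (g * g⁻¹) x = x
  rw [mul_inv_cancel]; rfl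

theorem mul_app (g h : E ≃ₗᵢ[ℝ] E) (x : E) : (g * h) x = g (h x) := rfl

end Sph41
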