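import Pool.Agent.LibSphere41.Small
import Pool.Agent.LibSphere41.Geo

/-!
Equivariant families of unit vectors over the sphere, and the gap lemma.
-/

open scoped RealInnerProductSpace
open Set Filter Topology

namespace Sph41

variable {E : Type*} [NormedAddCommGroup E] [InnerProductSpace ℝ E]
variable {H : Type*} [NormedAddCommGroup H] [InnerProductSpace ℝ H]

/-- An equivariant family of unit vectors of `H`, indexed by the unit sphere of `E`. -/
structure Fam (U : (E ≃ₗᵢ[ℝ] E) →* (H →ₗᵢ[ℝ] H)) (v : E → H) : Prop where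
  eqv : ∀ (g : E ≃ₗᵢ[ℝ] E) (x : E), ‖x‖ = 1 → U g (v x) = v (g x)
  nrm : ∀ x : E, ‖x‖ = 1 → ‖v x‖ = 1

variable {U : (E ≃ₗᵢ[ℝ] E) →* (H →ₗᵢ[ℝ] H)}

theorem Fam.neg {v : E → H} (hv : Fam U v) : Fam U (fun x => - v x) where
  eqv := fun g x hx => by rw [map_neg, hv.eqv g x hx]
  nrm := fun x hx => by rw [norm_neg, hv.nrm x hx]

theorem Fam.inner_congr {v w : E → H} (hv : Fam U v) (hw : Fam U w) {x y x' y' : E}
    (hx : ‖x‖ = 1) (hy : ‖y‖ = 1) (hx' : ‖x'‖ = 1) (hy' : ‖y'‖ = 1)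
    (h : ⟪x, y⟫ = ⟪x', y'⟫) : ⟪v x, w y⟫ = ⟪v x', w y'⟫ := by
  obtain ⟨g, h1, h2⟩ := exists_pair (hx.trans hx'.symm) (hy.trans hy'.symm) h
  rw [← h1, ← h2, ← hv.eqv g x hx, ← hw.eqv g y hy, (U g).inner_map_map]

/-- A unit vector fixed by the stabiliser of `o` belongs to an equivariant family. -/
theorem exists_fam {o : E} (ho : ‖o‖ = 1) {z : H} (hz : ‖z‖ = 1)
    (hfix : ∀ g ∈ stab {o}, U g z = z) : ∃ v : E → H, Fam U v ∧ v o = z := by
  have hex : ∀ x : E, ‖x‖ = 1 → ∃ g : E ≃ₗᵢ[ℝ] E, g o = x := fun x hx =>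
    ⟨refl (o - x), refl_sub (ho.trans hx.symm)⟩
  classical
  let γ : E → (E ≃ₗᵢ[ℝ] E) := fun x => if hx : ‖x‖ = 1 then (hex x hx).choose else 1
  have hγ : ∀ x, ‖x‖ = 1 → γ x o = x := by
    intro x hx
    simp only [γ, hx, dif_pos]
    exact (hex x hx).choose_spec
  have key : ∀ g h : E ≃ₗᵢ[ℝ] E, g o = h o → U g z = U h z := by
    intro g h hgh
    have h1 : h⁻¹ * g ∈ stab {o} := by
      intro x hx
      rw [mem_singleton_iff] at hx
      rw [hx, mul_app, hgh, inv_apply_self]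
    have h2 := hfix _ h1
    rw [U_mul] at h2
    have h3 := congrArg (U h) h2
    rw [U_inv_right] at h3
    exact h3
  refine ⟨fun x => U (γ x) z, ⟨fun g x hx => ?_, fun x _ => ?_⟩, ?_⟩
  · rw [← U_mul]
    apply key
    rw [mul_app, hγ x hx, hγ]
    rw [g.norm_map, hx]
  · rw [(U (γ x)).norm_map, hz]
  · have : U (γ o) z = U 1 z := by
      apply key
      rw [hγ o ho]; rfl
    rw [U_one] at this
    exact this

theorem Fam.fixed {v : E → H} (hv : Fam U v) {x : E} (hx : ‖x‖ = 1) {g : E ≃ₗᵢ[ℝ] E}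
    (hg : g x = x) : U g (v x) = v x := by
  rw [hv.eqv g x hx, hg]

variable [CompleteSpace H]

/-- The gap lemma. -/
theorem gap (hE : ∀ a b : E, ∃ z : E, ‖z‖ = 1 ∧ ⟪a, z⟫ = 0 ∧ ⟪b, z⟫ = 0)
    (hNC : ∀ w : H, IsCont U ball w → w = 0) {v w : E → H} (hv : Fam U v) (hw : Fam U w)
    {p q : E} (hp : ‖p‖ = 1) (hq : ‖q‖ = 1) (h1 : ⟪p, q⟫ ≠ 1) (h2 : ⟪p, q⟫ ≠ -1) :
    ⟪v p, w q⟫ ≤ 7 / 8 := by
  by_contra hcon
  push Not at hcon
  set t := ⟪p, q⟫ with ht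
  have habs : |t| ≤ 1 := by
    have := abs_real_inner_le_norm p q
    rwa [hp, hq, one_mul] at this
  have ht1 : t ^ 2 < 1 := by
    rw [abs_le] at habs
    have ha : t < 1 := lt_of_le_of_ne habs.2 h1
    have hb : -1 < t := lt_of_le_of_ne habs.1 (Ne.symm h2)
    nlinarith
  set r := ‖v p - w q‖ with hr
  have hr2 : r ^ 2 = 2 - 2 * ⟪v p, w q⟫ := by
    rw [hr, norm_sub_sq_real, hv.nrm p hp, hw.nrm q hq]; ring
  have hr0 : 0 ≤ r := norm_nonneg _
  have hr1 : 2 * r < 1 := by nlinarith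
  set δ := √(1 - t ^ 2) with hδ
  have hδ0 : 0 < δ := Real.sqrt_pos.2 (by linarith)
  have hδ2 : δ ^ 2 = 1 - t ^ 2 := Real.sq_sqrt (by linarith)
  have hclose : ∀ g ∈ ball (E := E) δ, ‖U g (v p) - v p‖ ≤ 2 * r := by
    intro g hg
    set p' := g p with hp'
    have hp'1 : ‖p'‖ = 1 := by rw [hp', g.norm_map, hp]
    have hd : ‖p' - p‖ ≤ δ := by
      have := hg p
      rwa [hp, mul_one] at this
    set c := ⟪p, p'⟫ with hc
    have hd2 : ‖p' - p‖ ^ 2 = 2 - 2 * c := by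
      rw [norm_sub_sq_real, hp, hp'1, real_inner_comm]; ring
    have hc1 : 2 - 2 * c ≤ 1 - t ^ 2 := by
      rw [← hd2, ← hδ2]
      exact pow_le_pow_left₀ (norm_nonneg _) hd 2
    have hc0 : 0 < 1 + c := by nlinarith
    obtain ⟨z, hz, hz1, hz2⟩ := hE p p'
    obtain ⟨q', e3, e1, e2⟩ := exists_third (t := t) hp hp'1 hz hz1 hz2 hc0 (by nlinarith)
    have e4 : ⟪v p, w q'⟫ = ⟪v p, w q⟫ := hv.inner_congr hw hp e3 hp hq (e1.trans ht)
    have e5 : ⟪v p', w q'⟫ = ⟪v p, w q⟫ := hv.inner_congr hw hp'1 e3 hp hq (e2.trans ht)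
    have e6 : ‖v p - w q'‖ = r := by
      have : ‖v p - w q'‖ ^ 2 = r ^ 2 := by
        rw [hr2, norm_sub_sq_real, hv.nrm p hp, hw.nrm q' e3, e4]; ring
      exact (pow_left_inj₀ (norm_nonneg _) hr0 two_ne_zero).1 this
    have e7 : ‖v p' - w q'‖ = r := by
      have : ‖v p' - w q'‖ ^ 2 = r ^ 2 := by
        rw [hr2, norm_sub_sq_real, hv.nrm p' hp'1, hw.nrm q' e3, e5]; ring
      exact (pow_left_inj₀ (norm_nonneg _) hr0 two_ne_zero).1 this
    rw [hv.eqv g p hp]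
    have e8 : v (g p) - v p = (v p' - w q') - (v p - w q') := by rw [hp']; abel
    rw [e8]
    calc ‖(v p' - w q') - (v p - w q')‖ ≤ ‖v p' - w q'‖ + ‖v p - w q'‖ := norm_sub_le _ _
      _ = 2 * r := by rw [e6, e7]; ring
  obtain ⟨c, hc, hc1⟩ := exists_small U (B := ball) (fun δ hδ => one_mem_ball hδ)
    (fun δ hδ => ball_mono (by linarith)) (fun δ _ g hg h hh => ball_mul hg hh) hNC (v p) hδ0
    (ε := 1 - 2 * r) (by linarith)
  have h3 : c ∈ Metric.closedBall (v p) (2 * r) := by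
    apply hull_subset U Metric.isClosed_closedBall (convex_closedBall _ _) _ hc
    intro g hg
    rw [mem_closedBall_iff_norm]
    exact hclose g hg
  rw [mem_closedBall_iff_norm] at h3
  have h4 : ‖v p‖ ≤ ‖c‖ + ‖c - v p‖ := by
    have : v p = c - (c - v p) := by abel
    calc ‖v p‖ = ‖c - (c - v p)‖ := by rw [← this]
      _ ≤ _ := norm_sub_le _ _
  rw [hv.nrm p hp] at h4
  linarith

end Sph41
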