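import Mathlib

/-!
The Hilbert space of a positive semidefinite kernel, with the action of a group preserving the
kernel.
-/

open scoped RealInnerProductSpace
open UniformSpace

namespace Sph41

/-- A symmetric positive semidefinite real kernel. -/
structure PDK (X : Type*) where
  k : X → X → ℝ
  symm : ∀ x y, k x y = k y x
  nonneg : ∀ s : X →₀ ℝ, 0 ≤ s.sum fun x a => s.sum fun y b => a * b * k x y

variable {X : Type*}

/-- Finitely supported functions, with the semi-inner product of the kernel. -/
def Pre (_K : PDK X) : Type _ := X →₀ ℝ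

variable (K : PDK X)

noncomputable instance : AddCommGroup (Pre K) := inferInstanceAs (AddCommGroup (X →₀ ℝ))
noncomputable instance : Module ℝ (Pre K) := inferInstanceAs (Module ℝ (X →₀ ℝ))

/-- The identity map to the pre-Hilbert space. -/
noncomputable def mk : (X →₀ ℝ) →ₗ[ℝ] Pre K :=
  (LinearMap.id : (X →₀ ℝ) →ₗ[ℝ] (X →₀ ℝ))

/-- The identity map from the pre-Hilbert space. -/
noncomputable def un : Pre K →ₗ[ℝ] (X →₀ ℝ) :=
  (LinearMap.id : (X →₀ ℝ) →ₗ[ℝ] (X →₀ ℝ))

theorem mk_un (s : Pre K) : mk K (un K s) = s := rfl

theorem un_mk (s : X →₀ ℝ) : un K (mk K s) = s := rfl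

/-- The bilinear form. -/
noncomputable def form (s t : X →₀ ℝ) : ℝ := s.sum fun x a => t.sum fun y b => a * b * K.k x y

theorem form_symm (s t : X →₀ ℝ) : form K s t = form K t s := by
  unfold form
  rw [Finsupp.sum_comm]
  apply Finsupp.sum_congr
  intro x _
  apply Finsupp.sum_congr
  intro y _
  rw [K.symm]; ring

theorem form_add (s s' t : X →₀ ℝ) : form K (s + s') t = form K s t + form K s' t := by
  unfold form
  rw [Finsupp.sum_add_index']
  · intro x; simp
  · intro x a b
    simp only [add_mul, Finsupp.sum_add]

theorem form_smul (c : ℝ) (s t : X →₀ ℝ) : form K (c • s) t = c * form K s t := by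
  unfold form
  rw [Finsupp.sum_smul_index (by intro x; simp), Finsupp.mul_sum]
  apply Finsupp.sum_congr
  intro x _
  rw [Finsupp.mul_sum]
  apply Finsupp.sum_congr
  intro y _
  ring

noncomputable instance instCore : PreInnerProductSpace.Core ℝ (Pre K) where
  inner s t := form K s t
  conj_inner_symm s t := form_symm K t s
  re_inner_nonneg s := K.nonneg s
  add_left s s' t := form_add K s s' t
  smul_left s t c := form_smul K c s t

noncomputable instance : SeminormedAddCommGroup (Pre K) :=
  InnerProductSpace.Core.toSeminormedAddCommGroup (𝕜 := ℝ)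

noncomputable instance : InnerProductSpace ℝ (Pre K) := .ofCore _

theorem pre_inner (s t : Pre K) : ⟪s, t⟫ = form K (un K s) (un K t) := rfl

theorem form_map (f : X → X) (hf : ∀ x y, K.k (f x) (f y) = K.k x y) (s t : X →₀ ℝ) :
    form K (Finsupp.mapDomain f s) (Finsupp.mapDomain f t) = form K s t := by
  unfold form
  rw [Finsupp.sum_mapDomain_index]
  · apply Finsupp.sum_congr
    intro x _
    rw [Finsupp.sum_mapDomain_index]
    · simp only [hf]
    · intro y; simp
    · intro y a b; ring
  · intro x; simp
  · intro x a b
    simp only [add_mul, Finsupp.sum_add]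

/-- The isometry of the pre-Hilbert space given by a kernel preserving map. -/
noncomputable def preMap (f : X → X) (hf : ∀ x y, K.k (f x) (f y) = K.k x y) :
    Pre K →ₗᵢ[ℝ] Pre K where
  toLinearMap := mk K ∘ₗ (Finsupp.lmapDomain ℝ ℝ f : (X →₀ ℝ) →ₗ[ℝ] (X →₀ ℝ)) ∘ₗ un K
  norm_map' s := by
    have h : ∀ s : Pre K, ‖s‖ ^ 2 = form K (un K s) (un K s) := fun s => by
      rw [← real_inner_self_eq_norm_sq, pre_inner]
    have h1 : ‖mk K (Finsupp.mapDomain f (un K s))‖ ^ 2 = ‖s‖ ^ 2 := by
      rw [h, h, un_mk]
      exact form_map K f hf _ _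
    exact (pow_left_inj₀ (norm_nonneg _) (norm_nonneg _) two_ne_zero).1 h1

theorem preMap_apply (f : X → X) (hf : ∀ x y, K.k (f x) (f y) = K.k x y) (s : Pre K) :
    preMap K f hf s = mk K (Finsupp.mapDomain f (un K s)) := rfl

/-- The Hilbert space of the kernel. -/
abbrev Hil : Type _ := Completion (Pre K)

/-- The vector of a point. -/
noncomputable def vec (x : X) : Hil K := (mk K (Finsupp.single x (1 : ℝ)) : Pre K)

theorem inner_vec (x y : X) : ⟪vec K x, vec K y⟫ = K.k x y := by
  unfold vec
  rw [Completion.inner_coe, pre_inner, un_mk, un_mk]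
  unfold form
  rw [Finsupp.sum_single_index, Finsupp.sum_single_index] <;> simp

/-- The isometry of the Hilbert space given by a kernel preserving map. -/
noncomputable def hilMap (f : X → X) (hf : ∀ x y, K.k (f x) (f y) = K.k x y) :
    Hil K →ₗᵢ[ℝ] Hil K where
  toLinearMap := ((preMap K f hf).toContinuousLinearMap.completion).toLinearMap
  norm_map' s := by
    induction s using Completion.induction_on with
    | hp =>
      apply isClosed_eq
      · exact continuous_norm.comp (ContinuousLinearMap.continuous _)
      · exact continuous_norm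
    | ih s =>
      change ‖(preMap K f hf).toContinuousLinearMap.completion (s : Hil K)‖ = _
      rw [ContinuousLinearMap.completion_apply_coe, Completion.norm_coe, Completion.norm_coe]
      exact (preMap K f hf).norm_map s

theorem hilMap_coe (f : X → X) (hf : ∀ x y, K.k (f x) (f y) = K.k x y) (s : Pre K) :
    hilMap K f hf (s : Hil K) = (preMap K f hf s : Pre K) := by
  change (preMap K f hf).toContinuousLinearMap.completion (s : Hil K) = _
  rw [ContinuousLinearMap.completion_apply_coe]
  rfl

theorem hilMap_vec (f : X → X) (hf : ∀ x y, K.k (f x) (f y) = K.k x y) (x : X) :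
    hilMap K f hf (vec K x) = vec K (f x) := by
  unfold vec
  rw [hilMap_coe, preMap_apply, un_mk, Finsupp.mapDomain_single]

variable {G : Type*} [Group G] (act : G →* Equiv.Perm X)
  (hact : ∀ g x y, K.k (act g x) (act g y) = K.k x y)

/-- The representation of the group on the Hilbert space of the kernel. -/
noncomputable def rep : G →* (Hil K →ₗᵢ[ℝ] Hil K) where
  toFun g := hilMap K (act g) (hact g)
  map_one' := by
    ext s
    induction s using Completion.induction_on with
    | hp => exact isClosed_eq (LinearIsometry.continuous _) (LinearIsometry.continuous _)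
    | ih s =>
      rw [hilMap_coe, preMap_apply]
      have : Finsupp.mapDomain (act 1) (un K s) = un K s := by
        rw [map_one]
        exact Finsupp.mapDomain_id
      rw [this, mk_un]
      rfl
  map_mul' g h := by
    ext s
    induction s using Completion.induction_on with
    | hp => exact isClosed_eq (LinearIsometry.continuous _) (LinearIsometry.continuous _)
    | ih s =>
      rw [LinearIsometry.coe_mul, Function.comp_apply, hilMap_coe, hilMap_coe, hilMap_coe,
        preMap_apply, preMap_apply, preMap_apply, un_mk, ← Finsupp.mapDomain_comp, map_mul]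
      rfl

theorem rep_vec (g : G) (x : X) : rep K act hact g (vec K x) = vec K (act g x) :=
  hilMap_vec K _ _ x

end Sph41
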