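import Pool.Agent.LibSphere41.Decomp
import Pool.Agent.LibSphere41.GNS

/-!
From the orthogonality theorem to positive definite functions on spheres.
-/

open scoped RealInnerProductSpace
open Set Filter Topology

namespace Sph41

section small

variable {E : Type*} [NormedAddCommGroup E] [InnerProductSpace ℝ E]

/-- A small isometry moving a unit vector to a nearby unit vector. -/
theorem small_rot {x y : E} (hx : ‖x‖ = 1) (hy : ‖y‖ = 1) (hxy : ‖x - y‖ < 1) :
    ∃ h : E ≃ₗᵢ[ℝ] E, h x = y ∧ h ∈ ball (E := E) (4 * √‖x - y‖) := by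
  obtain ⟨N, hN⟩ : ∃ N : ℝ, N = ‖x + y‖ := ⟨_, rfl⟩
  have hN1 : 2 - ‖x - y‖ ≤ N := by
    have h1 : (2 : ℝ) • x = (x + y) + (x - y) := by module
    have h2 : ‖(2 : ℝ) • x‖ = 2 := by rw [norm_smul, hx]; norm_num
    have h3 := norm_add_le (x + y) (x - y)
    rw [← h1, h2] at h3
    rw [hN]; linarith
  have hN0 : 0 < N := by linarith
  obtain ⟨u, hu⟩ : ∃ u : E, u = N⁻¹ • (x + y) := ⟨_, rfl⟩
  have hun : ‖u‖ = 1 := by
    rw [hu, norm_smul, norm_inv, Real.norm_of_nonneg hN0.le, ← hN, inv_mul_cancel₀ hN0.ne']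
  have hxx : ⟪x, x⟫ = 1 := by rw [real_inner_self_eq_norm_sq, hx]; norm_num
  have hN2 : N ^ 2 = 2 + 2 * ⟪x, y⟫ := by
    rw [hN, norm_add_sq_real, hx, hy]; ring
  have hux : ‖u - x‖ ^ 2 ≤ ‖x - y‖ := by
    have h1 : ⟪u, x⟫ = N / 2 := by
      have h2 : ⟪u, x⟫ = N⁻¹ * (1 + ⟪x, y⟫) := by
        rw [hu, inner_smul_left, inner_add_left, hxx, real_inner_comm]
        simp
      rw [h2, show 1 + ⟪x, y⟫ = N ^ 2 / 2 by linarith]
      field_simp
    rw [norm_sub_sq_real, hun, hx, h1]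
    linarith
  have hux' : ‖u - x‖ ≤ √‖x - y‖ := Real.le_sqrt_of_sq_le hux
  have hrefl : refl (-x - y) = refl u := by
    have h1 : -x - y = (-N) • u := by
      rw [hu, smul_smul, neg_mul, mul_inv_cancel₀ hN0.ne']; module
    rw [h1, refl_smul (neg_ne_zero.2 hN0.ne')]
  refine ⟨refl u * refl x, ?_, ?_⟩
  · rw [mul_app, refl_self, ← hrefl]
    exact refl_sub (by rw [norm_neg, hx, hy])
  · intro z
    have h1 : (refl u * refl x) z - z = refl u (refl x z - refl u z) := by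
      rw [map_sub, refl_refl]; rfl
    rw [h1, LinearIsometryEquiv.norm_map, refl_apply, refl_apply, hx, hun]
    have h2 : z - (2 * (⟪x, z⟫ / 1 ^ 2)) • x - (z - (2 * (⟪u, z⟫ / 1 ^ 2)) • u)
        = (2 * ⟪u, z⟫) • (u - x) + (2 * ⟪u - x, z⟫) • x := by
      rw [inner_sub_left]
      module
    rw [h2]
    have h3 : ‖(2 * ⟪u, z⟫) • (u - x)‖ ≤ 2 * ‖u - x‖ * ‖z‖ := by
      rw [norm_smul, Real.norm_eq_abs, abs_mul, abs_two]
      have h4 := abs_real_inner_le_norm u z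
      rw [hun, one_mul] at h4
      nlinarith [norm_nonneg (u - x)]
    have h4 : ‖(2 * ⟪u - x, z⟫) • x‖ ≤ 2 * ‖u - x‖ * ‖z‖ := by
      rw [norm_smul, Real.norm_eq_abs, abs_mul, abs_two, hx, mul_one]
      have h5 := abs_real_inner_le_norm (u - x) z
      nlinarith
    calc _ ≤ ‖(2 * ⟪u, z⟫) • (u - x)‖ + ‖(2 * ⟪u - x, z⟫) • x‖ := norm_add_le _ _
      _ ≤ 4 * ‖u - x‖ * ‖z‖ := by linarith
      _ ≤ 4 * √‖x - y‖ * ‖z‖ := by gcongr

variable {H : Type*} [NormedAddCommGroup H] [InnerProductSpace ℝ H]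

theorem eqv_cont {U : (E ≃ₗᵢ[ℝ] E) →* (H →ₗᵢ[ℝ] H)} {c : E → H}
    (hc : ∀ (g : E ≃ₗᵢ[ℝ] E) (x : E), ‖x‖ = 1 → U g (c x) = c (g x))
    {x : E} (hx : ‖x‖ = 1) (hcont : IsCont U ball (c x)) {ε : ℝ} (hε : 0 < ε) :
    ∃ δ > 0, ∀ y : E, ‖y‖ = 1 → ‖x - y‖ < δ → ‖c y - c x‖ ≤ ε := by
  obtain ⟨δ, hδ, h⟩ := hcont ε hε
  refine ⟨min 1 ((δ / 4) ^ 2), by positivity, fun y hy hxy => ?_⟩
  obtain ⟨k, hk, hkb⟩ := small_rot hx hy (lt_of_lt_of_le hxy (min_le_left _ _))
  have h1 : √‖x - y‖ ≤ δ / 4 := by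
    rw [Real.sqrt_le_left (by positivity)]
    exact (hxy.trans_le (min_le_right _ _)).le
  have h2 := h k (ball_mono (by linarith) hkb)
  rwa [hc k x hx, hk] at h2

end small

/-- The unit sphere as a type. -/
abbrev Sp (E : Type*) [NormedAddCommGroup E] := {x : E // ‖x‖ = 1}

/-- The action of isometries on the unit sphere. -/
noncomputable def sact (E : Type*) [NormedAddCommGroup E] [InnerProductSpace ℝ E] :
    (E ≃ₗᵢ[ℝ] E) →* Equiv.Perm (Sp E) where
  toFun g :=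
    { toFun := fun x => ⟨g x, by rw [g.norm_map, x.2]⟩
      invFun := fun x => ⟨g⁻¹ x, by rw [LinearIsometryEquiv.norm_map, x.2]⟩
      left_inv := fun x => Subtype.ext (inv_apply_self g x)
      right_inv := fun x => Subtype.ext (apply_inv_self g x) }
  map_one' := by ext x; rfl
  map_mul' g h := by ext x; rfl

/-- `f` is positive definite on the unit sphere of `E`. -/
def PD (E : Type*) [NormedAddCommGroup E] [InnerProductSpace ℝ E] (f : ℝ → ℝ) : Prop :=
  ∀ (m : ℕ) (x : Fin m → E), (∀ i, ‖x i‖ = 1) →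
    (Matrix.of fun i j => f ⟪x i, x j⟫ : Matrix (Fin m) (Fin m) ℝ).PosSemidef

variable {E : Type*} [NormedAddCommGroup E] [InnerProductSpace ℝ E]

/-- The kernel of a positive definite function. -/
def kerOf {f : ℝ → ℝ} (hf : PD E f) : PDK (Sp E) where
  k x y := f ⟪(x : E), (y : E)⟫
  symm x y := by rw [real_inner_comm]
  nonneg s := by
    set q : Fin s.support.card ≃ s.support := s.support.equivFin.symm with hq
    have h := (hf s.support.card (fun i => ((q i : Sp E) : E)) (fun i => (q i : Sp E).2)).2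
      (Finsupp.equivFunOnFinite.symm (fun i => s (q i : Sp E)))
    rw [Finsupp.sum_fintype _ _ (by intro i; simp)] at h
    have h2 : s.sum (fun x a => s.sum fun y b => a * b * f ⟪(x : E), (y : E)⟫)
        = ∑ i, ∑ j, s (q i : Sp E) * s (q j : Sp E)
          * f ⟪((q i : Sp E) : E), ((q j : Sp E) : E)⟫ := by
      unfold Finsupp.sum
      rw [← Finset.sum_coe_sort, ← Equiv.sum_comp q]
      apply Finset.sum_congr rfl
      intro i _
      beta_reduce
      rw [← Finset.sum_coe_sort s.support, ← Equiv.sum_comp q]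
    rw [h2]
    refine le_of_le_of_eq h ?_
    apply Finset.sum_congr rfl
    intro i _
    rw [Finsupp.sum_fintype _ _ (by intro i; simp)]
    apply Finset.sum_congr rfl
    intro j _
    simp only [Finsupp.equivFunOnFinite_symm_apply_apply, Matrix.of_apply, star_trivial]
    ring

/-- The main theorem for an abstract Euclidean space. -/
theorem main {n : ℕ} (hn : 5 ≤ n) (b : OrthonormalBasis (Fin n) ℝ E) {f : ℝ → ℝ}
    (hf : PD E f) :
    ∃ (α β : ℝ) (g : ℝ → ℝ), 0 ≤ α ∧ 0 ≤ β ∧ ContinuousOn g (Icc (-1) 1) ∧ PD E g ∧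
      ∀ t ∈ Icc (-1 : ℝ) 1,
        f t = α * indicator {-1, 1} 1 t + β * (t * indicator {-1, 1} 1 t) + g t := by
  classical
  set K := kerOf hf with hK
  have hact : ∀ (g : E ≃ₗᵢ[ℝ] E) (x y : Sp E), K.k (sact E g x) (sact E g y) = K.k x y := by
    intro g x y
    change f ⟪g (x : E), g (y : E)⟫ = f ⟪(x : E), (y : E)⟫
    rw [g.inner_map_map]
  set U := rep K (sact E) hact with hU
  set v : E → Hil K := fun x => if hx : ‖x‖ = 1 then vec K ⟨x, hx⟩ else 0 with hv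
  have hvx : ∀ x (hx : ‖x‖ = 1), v x = vec K ⟨x, hx⟩ := fun x hx => dif_pos hx
  have hveq : ∀ (g : E ≃ₗᵢ[ℝ] E) (x : E), ‖x‖ = 1 → U g (v x) = v (g x) := by
    intro g x hx
    rw [hvx x hx, hvx (g x) (by rw [g.norm_map, hx]), hU, rep_vec]
    rfl
  have hvin : ∀ x y : E, ‖x‖ = 1 → ‖y‖ = 1 → ⟪v x, v y⟫ = f ⟪x, y⟫ := by
    intro x y hx hy
    rw [hvx x hx, hvx y hy, inner_vec]
    rfl
  obtain ⟨c, s, hsum, hc, hs, hcc, hss⟩ := decomp (U := U) hn b hveq
  -- the base points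
  obtain ⟨o, p, ho, hp, hop⟩ : ∃ o p : E, ‖o‖ = 1 ∧ ‖p‖ = 1 ∧ ⟪o, p⟫ = 0 :=
    ⟨b ⟨0, by omega⟩, b ⟨1, by omega⟩, b.norm_eq_one _, b.norm_eq_one _,
      b.orthonormal.2 (by simp [Fin.ext_iff])⟩
  have hoo : ⟪o, o⟫ = 1 := by rw [real_inner_self_eq_norm_sq, ho]; norm_num
  have hpo : ⟪p, o⟫ = 0 := by rw [real_inner_comm]; exact hop
  set y : ℝ → E := fun t => t • o + √(1 - t ^ 2) • p with hy
  have hyn : ∀ t ∈ Icc (-1 : ℝ) 1, ‖y t‖ = 1 := by
    intro t ht
    apply dir_norm ho hp hop (u := 0) (inner_zero_left _) (inner_zero_left _)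
    nlinarith [ht.1, ht.2]
  have hyo : ∀ t : ℝ, ⟪o, y t⟫ = t := by
    intro t
    rw [hy]
    simp only [inner_add_right, inner_smul_right, hoo, hop]
    ring
  have hycont : Continuous y := by
    rw [hy]
    fun_prop
  set g : ℝ → ℝ := fun t => ⟪c o, c (y t)⟫ with hg
  have hin : ∀ x z : E, ‖x‖ = 1 → ‖z‖ = 1 → ⟪x, z⟫ ∈ Icc (-1 : ℝ) 1 := by
    intro x z hx hz
    have := abs_real_inner_le_norm x z
    rw [hx, hz, one_mul, abs_le] at this
    exact this
  have hgc : ∀ x z : E, ‖x‖ = 1 → ‖z‖ = 1 → g ⟪x, z⟫ = ⟪c x, c z⟫ := by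
    intro x z hx hz
    have ht := hin x z hx hz
    obtain ⟨k, hk1, hk2⟩ := exists_pair (ho.trans hx.symm) ((hyn _ ht).trans hz.symm) (hyo _)
    rw [hg]
    simp only
    rw [← (U k).inner_map_map, hc k o ho, hc k _ (hyn _ ht), hk1, hk2]
  have hso : ‖s (-o)‖ = ‖s o‖ := by
    have h1 := hs (refl o) o ho
    rw [refl_self] at h1
    rw [← h1, LinearIsometry.norm_map]
  obtain ⟨S, hS⟩ : ∃ S : ℝ, S = ⟪s o, s o⟫ := ⟨_, rfl⟩
  obtain ⟨T, hT⟩ : ∃ T : ℝ, T = ⟪s o, s (-o)⟫ := ⟨_, rfl⟩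
  have hTS : |T| ≤ S := by
    have h1 := abs_real_inner_le_norm (s o) (s (-o))
    rw [hso, ← hT] at h1
    rw [hS, real_inner_self_eq_norm_mul_norm]
    exact h1
  rw [abs_le] at hTS
  refine ⟨(S + T) / 2, (S - T) / 2, g, by linarith, by linarith, ?_, ?_, ?_⟩
  · -- continuity
    intro t0 ht0
    have h1 : ContinuousWithinAt (fun t => c (y t)) (Icc (-1) 1) t0 := by
      rw [Metric.continuousWithinAt_iff]
      intro ε hε
      obtain ⟨δ, hδ, h⟩ := eqv_cont hc (hyn t0 ht0) (hcc (y t0)) (half_pos hε)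
      have h2 : ContinuousAt y t0 := hycont.continuousAt
      rw [Metric.continuousAt_iff] at h2
      obtain ⟨δ', hδ', h3⟩ := h2 δ hδ
      refine ⟨δ', hδ', fun t ht htd => ?_⟩
      have h4 := h3 htd
      rw [dist_eq_norm] at h4 ⊢
      have h5 := h (y t) (hyn t ht) (by rw [norm_sub_rev]; exact h4)
      linarith
    have h2 := ContinuousWithinAt.inner (𝕜 := ℝ)
      (continuousWithinAt_const (b := c o) (s := Icc (-1 : ℝ) 1) (x := t0)) h1
    exact h2
  · -- positive definiteness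
    intro m x hx
    have h1 : (Matrix.of fun i j => g ⟪x i, x j⟫ : Matrix (Fin m) (Fin m) ℝ)
        = Matrix.gram ℝ (fun i => c (x i)) := by
      ext i j
      rw [Matrix.of_apply, Matrix.gram_apply]
      exact hgc _ _ (hx i) (hx j)
    rw [h1]
    exact Matrix.posSemidef_gram ℝ _
  · -- the decomposition
    intro t ht
    have h1 : f t = g t + ⟪s o, s (y t)⟫ := by
      have h2 := hsum o (y t)
      rw [hvin _ _ ho (hyn t ht), hyo] at h2
      exact h2
    rw [h1]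
    by_cases ht1 : t = 1
    · have h3 : y 1 = o := by simp [hy]
      rw [ht1, h3, ← hS]
      simp
      ring
    · by_cases ht2 : t = -1
      · have h3 : y (-1) = -o := by simp [hy]
        rw [ht2, h3, ← hT]
        simp
        ring
      · rw [hss o (y t) ho (hyn t ht) (by rw [hyo]; exact ht1) (by rw [hyo]; exact ht2)]
        have h3 : t ∉ ({-1, 1} : Set ℝ) := by
          simp only [mem_insert_iff, mem_singleton_iff, not_or]
          exact ⟨ht2, ht1⟩
        rw [indicator_of_notMem h3]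
        ring

end Sph41
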