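import Pool.Agent.LibSphere41.Steps2

/-!
Step 4: a vector fixed by two commuting groups and almost fixed by the mixing isometry is almost
fixed by the whole stabiliser of `e 0`.
-/

open scoped RealInnerProductSpace
open Set Filter Topology

namespace Sph41

variable {E : Type*} [NormedAddCommGroup E] [InnerProductSpace ℝ E]

theorem refl_conj (h : E ≃ₗᵢ[ℝ] E) (w : E) : refl (h w) = h * refl w * h⁻¹ := by
  ext x
  rw [mul_app, mul_app, refl_apply, refl_apply, map_sub, map_smul, apply_inv_self, h.norm_map]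
  have : ⟪h w, x⟫ = ⟪w, h⁻¹ x⟫ := by
    conv_lhs => rw [← apply_inv_self h x]
    exact h.inner_map_map _ _
  rw [this]

theorem refl_smul {c : ℝ} (hc : c ≠ 0) (w : E) : refl (c • w) = refl w := by
  ext x
  rw [refl_apply, refl_apply, inner_smul_left, norm_smul, mul_pow, smul_smul, Real.norm_eq_abs,
    sq_abs]
  simp only [conj_trivial]
  congr 2
  field_simp

theorem refl_zero (x : E) : refl (0 : E) x = x := by
  rw [refl_apply]; simp

variable {H : Type*} [NormedAddCommGroup H] [InnerProductSpace ℝ H]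
variable {U : (E ≃ₗᵢ[ℝ] E) →* (H →ₗᵢ[ℝ] H)}

theorem near_mul (X : H) (g h : E ≃ₗᵢ[ℝ] E) :
    ‖U (g * h) X - X‖ ≤ ‖U g X - X‖ + ‖U h X - X‖ := by
  have : U (g * h) X - X = U g (U h X - X) + (U g X - X) := by
    rw [map_sub, U_mul]; abel
  rw [this]
  calc _ ≤ ‖U g (U h X - X)‖ + ‖U g X - X‖ := norm_add_le _ _
    _ = ‖U g X - X‖ + ‖U h X - X‖ := by rw [(U g).norm_map]; ring

theorem near_inv (X : H) (g : E ≃ₗᵢ[ℝ] E) : ‖U g⁻¹ X - X‖ = ‖U g X - X‖ := by
  rw [← (U g).norm_map (U g⁻¹ X - X), map_sub, U_inv_right, norm_sub_rev]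

theorem near_conj (X : H) (h k : E ≃ₗᵢ[ℝ] E) :
    ‖U (h * k * h⁻¹) X - X‖ ≤ 2 * ‖U h X - X‖ + ‖U k X - X‖ := by
  have h1 := near_mul (U := U) X (h * k) h⁻¹
  have h2 := near_mul (U := U) X h k
  rw [near_inv] at h1
  linarith

variable {e : Fin 5 → E} (he : Orthonormal ℝ e)

include he

theorem near_mixed {X : H} (hK : ∀ k ∈ circ (e 1) (e 2), U k X = X)
    (hL : ∀ k ∈ stab {e 0, e 1, e 2}, U k X = X)
    {g : E ≃ₗᵢ[ℝ] E} (g1 : g (e 1) = (1 / √2 : ℝ) • (e 1 + e 3)) {η : ℝ}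
    (hg : ‖U g X - X‖ ≤ η) {u1 u2 : E} (hu1 : ‖u1‖ = 1) (hu2 : ‖u2‖ = 1)
    (h1 : ∀ x : E, ⟪e 1, x⟫ = 0 → ⟪e 2, x⟫ = 0 → ⟪u1, x⟫ = 0)
    (h20 : ⟪u2, e 0⟫ = 0) (h21 : ⟪u2, e 1⟫ = 0) (h22 : ⟪u2, e 2⟫ = 0) :
    ‖U (refl ((1 / √2 : ℝ) • (u1 + u2))) X - X‖ ≤ 2 * η := by
  have hE := e_inner he
  have hl1 : refl (e 1 - u1) ∈ circ (e 1) (e 2) := by
    apply refl_mem_circ
    intro x hx1 hx2
    rw [inner_sub_left, hx1, h1 x hx1 hx2, sub_zero]
  have hl2 : refl (e 3 - u2) ∈ stab {e 0, e 1, e 2} := by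
    intro x hx
    apply refl_of_inner
    simp only [mem_insert_iff, mem_singleton_iff] at hx
    rcases hx with rfl | rfl | rfl
    · rw [inner_sub_left, h20]; simp [hE]
    · rw [inner_sub_left, h21]; simp [hE]
    · rw [inner_sub_left, h22]; simp [hE]
  have hu12 : ⟪u1, u2⟫ = 0 := h1 u2 (by rw [real_inner_comm]; exact h21)
    (by rw [real_inner_comm]; exact h22)
  set l := refl (e 1 - u1) * refl (e 3 - u2) with hl
  have hlX : U l X = X := by rw [hl, U_mul, hL _ hl2, hK _ hl1]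
  have hlg : (l * g) (e 1) = (1 / √2 : ℝ) • (u1 + u2) := by
    rw [mul_app, g1, map_smul, map_add]
    congr 1
    have e1 : l (e 1) = u1 := by
      rw [hl, mul_app, mem_stab.1 hl2 (e 1) (by simp), refl_sub ((he.1 1).trans hu1.symm)]
    have e2 : l (e 3) = u2 := by
      rw [hl, mul_app, refl_sub ((he.1 3).trans hu2.symm), refl_of_inner]
      rw [inner_sub_left, hu12, real_inner_comm, h21, sub_zero]
    rw [e1, e2]
  rw [← hlg, refl_conj]
  have h3 := near_conj (U := U) X (l * g) (refl (e 1))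
  have h4 : U (refl (e 1)) X = X := by
    apply hK
    apply refl_mem_circ
    intro x hx _
    exact hx
  rw [h4, sub_self, norm_zero, add_zero] at h3
  have h5 := near_mul (U := U) X l g
  rw [hlX, sub_self, norm_zero, zero_add] at h5
  linarith

/-- Step 4. -/
theorem near_refl {X : H} (hK : ∀ k ∈ circ (e 1) (e 2), U k X = X)
    (hL : ∀ k ∈ stab {e 0, e 1, e 2}, U k X = X)
    {g : E ≃ₗᵢ[ℝ] E} (g1 : g (e 1) = (1 / √2 : ℝ) • (e 1 + e 3)) {η : ℝ}
    (hg : ‖U g X - X‖ ≤ η) {w : E} (hw : ‖w‖ = 1) (hw0 : ⟪e 0, w⟫ = 0) :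
    ‖U (refl w) X - X‖ ≤ 8 * η := by
  have hE := e_inner he
  obtain ⟨r, hr⟩ : ∃ r : ℝ, r = 1 / √2 := ⟨_, rfl⟩
  have hr2 : r ^ 2 = 1 / 2 := by
    rw [hr, div_pow, Real.sq_sqrt (by norm_num)]; norm_num
  -- decomposition of `w`
  obtain ⟨x, hx⟩ : ∃ x : ℝ, x = ⟪e 1, w⟫ := ⟨_, rfl⟩
  obtain ⟨y, hy⟩ : ∃ y : ℝ, y = ⟪e 2, w⟫ := ⟨_, rfl⟩
  obtain ⟨w2, hw2⟩ : ∃ w2 : E, w2 = w - (x • e 1 + y • e 2) := ⟨_, rfl⟩
  have i20 : ⟪e 0, w2⟫ = 0 := by
    rw [hw2]; simp [inner_sub_right, inner_add_right, inner_smul_right, hE, hw0]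
  have i21 : ⟪e 1, w2⟫ = 0 := by
    rw [hw2, inner_sub_right, inner_add_right, inner_smul_right, inner_smul_right, hE, hE, ← hx]
    simp
  have i22 : ⟪e 2, w2⟫ = 0 := by
    rw [hw2, inner_sub_right, inner_add_right, inner_smul_right, inner_smul_right, hE, hE, ← hy]
    simp
  have hww : w = (x • e 1 + y • e 2) + w2 := by rw [hw2]; abel
  have n1 : ‖x • e 1 + y • e 2‖ ^ 2 = x ^ 2 + y ^ 2 := by
    rw [← real_inner_self_eq_norm_sq]
    simp only [inner_add_left, inner_add_right, inner_smul_left, inner_smul_right, hE,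
      conj_trivial]
    simp
    ring
  have n2 : x ^ 2 + y ^ 2 + ‖w2‖ ^ 2 = 1 := by
    have h1 : ‖w‖ ^ 2 = ‖x • e 1 + y • e 2‖ ^ 2 + ‖w2‖ ^ 2 := by
      conv_lhs => rw [hww]
      rw [norm_add_sq_real]
      simp [inner_add_left, inner_smul_left, i21, i22]
    rw [hw, n1] at h1
    linarith
  obtain ⟨c, hc, hc0⟩ : ∃ c : ℝ, c ^ 2 = x ^ 2 + y ^ 2 ∧ 0 ≤ c :=
    ⟨√(x ^ 2 + y ^ 2), Real.sq_sqrt (by positivity), Real.sqrt_nonneg _⟩
  -- the unit vector `u1'`
  obtain ⟨a, b, hab, hax, hby⟩ : ∃ a b : ℝ, a ^ 2 + b ^ 2 = 1 ∧ x = c * a ∧ y = c * b := by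
    rcases eq_or_lt_of_le hc0 with h0 | h0
    · rw [← h0] at hc
      have hx0 : x = 0 := by nlinarith [sq_nonneg x, sq_nonneg y]
      have hy0 : y = 0 := by nlinarith [sq_nonneg x, sq_nonneg y]
      exact ⟨1, 0, by norm_num, by rw [hx0, ← h0]; ring, by rw [hy0, ← h0]; ring⟩
    · refine ⟨x / c, y / c, ?_, ?_, ?_⟩
      · rw [div_pow, div_pow, ← add_div, ← hc, div_self (by positivity)]
      · field_simp
      · field_simp
  -- the unit vector `u2'`
  obtain ⟨a3, a4, ha34, hperp⟩ : ∃ a3 a4 : ℝ, a3 ^ 2 + a4 ^ 2 = 1 ∧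
      ⟪a3 • e 3 + a4 • e 4, w2⟫ = 0 := by
    obtain ⟨z3, hz3⟩ : ∃ z : ℝ, z = ⟪e 3, w2⟫ := ⟨_, rfl⟩
    obtain ⟨z4, hz4⟩ : ∃ z : ℝ, z = ⟪e 4, w2⟫ := ⟨_, rfl⟩
    by_cases h0 : z3 ^ 2 + z4 ^ 2 = 0
    · have h3 : z3 = 0 := by nlinarith [sq_nonneg z3, sq_nonneg z4]
      refine ⟨1, 0, by norm_num, ?_⟩
      rw [inner_add_left, inner_smul_left, inner_smul_left, ← hz3, h3]
      simp
    · have hp : 0 < z3 ^ 2 + z4 ^ 2 := lt_of_le_of_ne (by positivity) (Ne.symm h0)
      have hs : √(z3 ^ 2 + z4 ^ 2) ^ 2 = z3 ^ 2 + z4 ^ 2 := Real.sq_sqrt hp.le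
      have hs0 : 0 < √(z3 ^ 2 + z4 ^ 2) := Real.sqrt_pos.2 hp
      refine ⟨- z4 / √(z3 ^ 2 + z4 ^ 2), z3 / √(z3 ^ 2 + z4 ^ 2), ?_, ?_⟩
      · rw [div_pow, div_pow, hs, ← add_div, neg_sq, add_comm, div_self h0]
      · rw [inner_add_left, inner_smul_left, inner_smul_left, ← hz3, ← hz4]
        simp only [conj_trivial]
        field_simp
        ring
  obtain ⟨u2', hu2'⟩ : ∃ u : E, u = a3 • e 3 + a4 • e 4 := ⟨_, rfl⟩
  rw [← hu2'] at hperp
  have nu2' : ‖u2'‖ = 1 := by rw [hu2']; exact norm_comb he (by decide) ha34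
  have j0 : ⟪e 0, u2'⟫ = 0 := by
    rw [hu2']; simp [inner_add_right, inner_smul_right, hE]
  have j1 : ⟪e 1, u2'⟫ = 0 := by
    rw [hu2']; simp [inner_add_right, inner_smul_right, hE]
  have j2 : ⟪e 2, u2'⟫ = 0 := by
    rw [hu2']; simp [inner_add_right, inner_smul_right, hE]
  obtain ⟨u1', hu1'⟩ : ∃ u : E, u = a • e 1 + b • e 2 := ⟨_, rfl⟩
  have nu1' : ‖u1'‖ = 1 := by rw [hu1']; exact norm_comb he (by decide) hab
  have hcu1 : c • u1' = x • e 1 + y • e 2 := by
    rw [hu1', smul_add, smul_smul, smul_smul, ← hax, ← hby]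
  obtain ⟨u2, hu2⟩ : ∃ u : E, u = c • u2' - w2 := ⟨_, rfl⟩
  have su : ⟪u2', u2'⟫ = 1 := by rw [real_inner_self_eq_norm_sq, nu2']; norm_num
  have k1 : ⟪u2', u2⟫ = c := by
    rw [hu2, inner_sub_right, inner_smul_right, su, hperp]; ring
  have nu2 : ‖u2‖ = 1 := by
    have h1 : ‖u2‖ ^ 2 = 1 := by
      rw [hu2, norm_sub_sq_real, norm_smul, mul_pow, nu2', inner_smul_left, hperp,
        Real.norm_eq_abs, sq_abs, hc]
      simp only [conj_trivial]
      linarith
    have h0 := norm_nonneg u2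
    nlinarith
  have l0 : ⟪u2, e 0⟫ = 0 := by
    rw [real_inner_comm, hu2, inner_sub_right, inner_smul_right, j0, i20]; ring
  have l1 : ⟪u2, e 1⟫ = 0 := by
    rw [real_inner_comm, hu2, inner_sub_right, inner_smul_right, j1, i21]; ring
  have l2 : ⟪u2, e 2⟫ = 0 := by
    rw [real_inner_comm, hu2, inner_sub_right, inner_smul_right, j2, i22]; ring
  have m1 := near_mixed he hK hL g1 hg (he.1 1) nu2 (fun x hx _ => hx) l0 l1 l2
  have m2 := near_mixed he hK hL g1 hg nu1' nu2'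
    (fun z hz1 hz2 => by
      rw [hu1', inner_add_left, inner_smul_left, inner_smul_left, hz1, hz2]; simp)
    (by rw [real_inner_comm]; exact j0) (by rw [real_inner_comm]; exact j1)
    (by rw [real_inner_comm]; exact j2)
  rw [← hr] at m1 m2
  have n11 : ⟪e 1, e 1⟫ = (1 : ℝ) := by rw [hE]; simp
  have n12 : ⟪e 1, u2⟫ = 0 := by rw [real_inner_comm]; exact l1
  have nm : ∀ u v : E, ‖u‖ = 1 → ‖v‖ = 1 → ⟪u, v⟫ = 0 → ‖r • (u + v)‖ ^ 2 = 1 := by
    intro u v hu hv huv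
    rw [norm_smul, mul_pow, Real.norm_eq_abs, sq_abs, hr2, norm_add_sq_real, hu, hv, huv]
    norm_num
  have s1 : refl (r • (e 1 + u2)) (e 1) = - u2 := by
    rw [refl_apply, nm _ _ (he.1 1) nu2 n12, inner_smul_left, inner_add_left, n11, l1, smul_smul]
    simp only [conj_trivial]
    rw [show 2 * (r * (1 + 0) / 1) * r = 2 * r ^ 2 by ring, hr2]
    module
  have huv : ⟪u1', u2'⟫ = 0 := by
    rw [hu1', inner_add_left, inner_smul_left, inner_smul_left, j1, j2]; simp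
  have huu : ⟪u1', u2⟫ = 0 := by
    rw [hu1', inner_add_left, inner_smul_left, inner_smul_left, real_inner_comm, l1,
      real_inner_comm, l2]; simp
  have s2 : refl (r • (u1' + u2')) (- u2) = w := by
    rw [refl_apply, nm _ _ nu1' nu2' huv, inner_smul_left, inner_add_left, inner_neg_right,
      inner_neg_right, huu, k1, smul_smul]
    simp only [conj_trivial]
    rw [show 2 * (r * (-0 + -c) / 1) * r = - (2 * r ^ 2 * c) by ring, hr2, hww, ← hcu1, hu2]
    module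
  set h := refl (r • (u1' + u2')) * refl (r • (e 1 + u2)) with hh
  have hhw : h (e 1) = w := by rw [hh, mul_app, s1, s2]
  rw [← hhw, refl_conj]
  have h3 := near_conj (U := U) X h (refl (e 1))
  have h4 : U (refl (e 1)) X = X := by
    apply hK
    apply refl_mem_circ
    intro x hx _
    exact hx
  rw [h4, sub_self, norm_zero, add_zero] at h3
  have h5 := near_mul (U := U) X (refl (r • (u1' + u2'))) (refl (r • (e 1 + u2)))
  rw [← hh] at h5
  linarith

omit he

/-- Step 5: from reflections to the stabiliser of a basis vector. -/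
theorem near_stab {n : ℕ} (b : OrthonormalBasis (Fin n) ℝ E) {X : H} {C : ℝ} (hC : 0 ≤ C)
    (i0 : Fin n) (hi0 : i0.val = 0)
    (hrefl : ∀ w : E, ‖w‖ = 1 → ⟪b i0, w⟫ = 0 → ‖U (refl w) X - X‖ ≤ C)
    {k : E ≃ₗᵢ[ℝ] E} (hk : k ∈ stab {b i0}) : ‖U k X - X‖ ≤ n * C := by
  have hrefl' : ∀ w : E, ⟪b i0, w⟫ = 0 → ‖U (refl w) X - X‖ ≤ C := by
    intro w hw
    by_cases h0 : w = 0
    · have : refl w = 1 := by
        ext x
        rw [h0]
        exact refl_zero x
      rw [this, U_one, sub_self, norm_zero]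
      exact hC
    · have h1 : ‖w‖ ≠ 0 := norm_ne_zero_iff.2 h0
      have h2 : refl (‖w‖⁻¹ • w) = refl w := refl_smul (inv_ne_zero h1) w
      rw [← h2]
      apply hrefl
      · rw [norm_smul, norm_inv, norm_norm, inv_mul_cancel₀ h1]
      · rw [inner_smul_right, hw, mul_zero]
  have claim : ∀ m : ℕ, m < n → ∀ k : E ≃ₗᵢ[ℝ] E, (∀ i : Fin n, i.val < n - m → k (b i) = b i) →
      ‖U k X - X‖ ≤ m * C := by
    intro m
    induction m with
    | zero =>
      intro _ k hk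
      have : k = 1 := by
        have h1 : (k : E → E) = (1 : E ≃ₗᵢ[ℝ] E) := by
          have h2 : k.toLinearEquiv.toLinearMap = LinearMap.id := by
            apply b.toBasis.ext
            intro i
            simpa using hk i (by have := i.2; omega)
          funext x
          exact congrArg (fun f : E →ₗ[ℝ] E => f x) h2
        ext x
        exact congrFun h1 x
      rw [this, U_one, sub_self, norm_zero]
      simp
    | succ m ih =>
      intro hm k hk
      obtain ⟨j, hj⟩ : ∃ j : Fin n, j.val = n - (m + 1) := ⟨⟨n - (m + 1), by omega⟩, rfl⟩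
      set w := k (b j) - b j with hw
      have hperp : ∀ i : Fin n, i.val < n - (m + 1) → ⟪b i, w⟫ = 0 := by
        intro i hi
        have h1 := hk i hi
        rw [hw, inner_sub_right]
        have h2 : ⟪b i, k (b j)⟫ = ⟪b i, b j⟫ := by
          conv_lhs => rw [← h1]
          exact k.inner_map_map _ _
        rw [h2, sub_self]
      have hi0' : ⟪b i0, w⟫ = 0 := hperp i0 (by omega)
      have h1 := ih (by omega) (refl w * k) (by
        intro i hi
        rw [mul_app]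
        by_cases hij : i.val < n - (m + 1)
        · rw [hk i hij]
          apply refl_of_inner
          rw [real_inner_comm]
          exact hperp i hij
        · have : i = j := Fin.ext (by omega)
          rw [this, hw]
          exact refl_sub (k.norm_map _))
      have h2 : ‖U (refl w) X - X‖ ≤ C := hrefl' w hi0'
      have h3 : k = refl w * (refl w * k) := by
        rw [← mul_assoc, refl_mul_self, one_mul]
      have h4 := near_mul (U := U) X (refl w) (refl w * k)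
      rw [← h3] at h4
      push_cast
      linarith
  have hn : 0 < n := by have := i0.2; omega
  have h1 := claim (n - 1) (by omega) k (by
    intro i hi
    have : i = i0 := Fin.ext (by omega)
    rw [this]
    exact hk _ (mem_singleton _))
  have h2 : ((n - 1 : ℕ) : ℝ) ≤ n := by exact_mod_cast Nat.sub_le n 1
  exact h1.trans (mul_le_mul_of_nonneg_right h2 hC)

end Sph41
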