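import Pool.Agent.LibSphere41.Near

/-!
The main orthogonality theorem: in an isometric representation of the orthogonal group of a
Euclidean space of dimension at least five without nonzero continuous vectors, vectors of
equivariant families at non-proportional points are orthogonal.
-/

open scoped RealInnerProductSpace
open Set Filter Topology

namespace Sph41

variable {E : Type*} [NormedAddCommGroup E] [InnerProductSpace ℝ E]
variable {H : Type*} [NormedAddCommGroup H] [InnerProductSpace ℝ H] [CompleteSpace H]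
variable {U : (E ≃ₗᵢ[ℝ] E) →* (H →ₗᵢ[ℝ] H)}

omit [NormedAddCommGroup H] [InnerProductSpace ℝ H] [CompleteSpace H] in
theorem exists_perp {n : ℕ} (hn : 3 ≤ n) (b : OrthonormalBasis (Fin n) ℝ E) (x y : E) :
    ∃ z : E, ‖z‖ = 1 ∧ ⟪x, z⟫ = 0 ∧ ⟪y, z⟫ = 0 := by
  have : FiniteDimensional ℝ E := b.toBasis.finiteDimensional_of_finite
  have hfin : Module.finrank ℝ E = n := by
    rw [Module.finrank_eq_card_basis b.toBasis, Fintype.card_fin]
  set K := Submodule.span ℝ ({x, y} : Set E) with hK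
  have h1 : Module.finrank ℝ K ≤ 2 := by
    classical
    have := finrank_span_finset_le_card (R := ℝ) ({x, y} : Finset E)
    rw [Finset.coe_pair] at this
    exact this.trans Finset.card_le_two
  have h2 : Module.finrank ℝ K + Module.finrank ℝ Kᗮ = Module.finrank ℝ E :=
    Submodule.finrank_add_finrank_orthogonal K
  have h3 : Kᗮ ≠ ⊥ := by
    intro h
    rw [h, finrank_bot] at h2
    omega
  obtain ⟨z, hz, hz0⟩ := Submodule.exists_mem_ne_zero_of_ne_bot h3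
  have hx : x ∈ K := Submodule.subset_span (by simp)
  have hy : y ∈ K := Submodule.subset_span (by simp)
  have hz1 : ‖z‖ ≠ 0 := norm_ne_zero_iff.2 hz0
  refine ⟨‖z‖⁻¹ • z, ?_, ?_, ?_⟩
  · rw [norm_smul, norm_inv, norm_norm, inv_mul_cancel₀ hz1]
  · rw [inner_smul_right, (Submodule.mem_orthogonal _ _).1 hz x hx, mul_zero]
  · rw [inner_smul_right, (Submodule.mem_orthogonal _ _).1 hz y hy, mul_zero]

/-- The contradiction for a positive extremal value. -/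
theorem no_extremal {n : ℕ} (hn : 5 ≤ n) (b : OrthonormalBasis (Fin n) ℝ E) {A : ℝ}
    (hA0 : 0 < A) (hA1 : A < 1)
    (hA : ∀ v w : E → H, Fam U v → Fam U w → ∀ x y : E, ‖x‖ = 1 → ‖y‖ = 1 → ⟪x, y⟫ ≠ 1 →
      ⟪x, y⟫ ≠ -1 → ⟪v x, w y⟫ ≤ A)
    (hnear : ∀ δ > 0, ∃ v w : E → H, Fam U v ∧ Fam U w ∧ ∃ x y : E, ‖x‖ = 1 ∧ ‖y‖ = 1 ∧
      ⟪x, y⟫ ≠ 1 ∧ ⟪x, y⟫ ≠ -1 ∧ A - δ < ⟪v x, w y⟫) : False := by
  set e : Fin 5 → E := fun i => b (Fin.castLE hn i) with hed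
  have he : Orthonormal ℝ e := b.orthonormal.comp _ (Fin.castLE_injective hn)
  have hE := e_inner he
  obtain ⟨i0, hi0, hbi0⟩ : ∃ i0 : Fin n, i0.val = 0 ∧ b i0 = e 0 :=
    ⟨Fin.castLE hn 0, rfl, rfl⟩
  have hsA1 : √A < 1 := by
    rw [Real.sqrt_lt' one_pos]; linarith
  have hsA0 : 0 < √A := Real.sqrt_pos.2 hA0
  obtain ⟨κ, hκ⟩ : ∃ κ : ℝ, κ = A - A * √A := ⟨_, rfl⟩
  have hκ0 : 0 < κ := by rw [hκ]; nlinarith
  obtain ⟨σ, hσ⟩ : ∃ σ : ℝ, σ = min 1 (κ / (16 * n + 4)) := ⟨_, rfl⟩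
  have hn0 : (0 : ℝ) ≤ n := Nat.cast_nonneg n
  have hσ0 : 0 < σ := by rw [hσ]; exact lt_min one_pos (by positivity)
  have hσ1 : σ ≤ 1 := by rw [hσ]; exact min_le_left _ _
  have hσκ : σ * (16 * n + 4) ≤ κ := by
    have : σ ≤ κ / (16 * n + 4) := by rw [hσ]; exact min_le_right _ _
    rwa [le_div_iff₀ (by positivity)] at this
  obtain ⟨ε, hε⟩ : ∃ ε : ℝ, ε = σ ^ 4 / 2 := ⟨_, rfl⟩
  have hε0 : 0 < ε := by rw [hε]; positivity
  have hσ2 : σ ^ 2 ≤ σ := by nlinarith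
  have hσ4 : σ ^ 4 ≤ σ ^ 2 := by nlinarith [sq_nonneg (σ ^ 2), sq_nonneg σ]
  have hε1 : ε ≤ 1 := by rw [hε]; linarith
  have hεs : √(2 * ε) = σ ^ 2 := by
    rw [hε, show 2 * (σ ^ 4 / 2) = (σ ^ 2) ^ 2 by ring, Real.sqrt_sq (by positivity)]
  obtain ⟨v, hv, t, s, ht, hts, hs, hsep, hF1, hF2⟩ := step2 he hA0 hA hnear hε0 hε1
  obtain ⟨g, g0, g1, g2⟩ := exists_mix he
  obtain ⟨α, ρ, hα0, hρ0, hαρ, hge⟩ :=
    step3 he hA0 hv (hA v v hv hv) ht hts hs hsep hF1 hF2 g0 g1 g2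
  have np : ‖α • e 0 + ρ • e 1‖ = 1 := norm_comb he (by decide) hαρ
  have hXA : ‖P U (circ (e 1) (e 2)) (v (α • e 0 + ρ • e 1))‖ ^ 2 ≤ A :=
    P_sq_le (he.1 1) (he.1 2) (by simp [hE]) (by simp [inner_smul_left, hE])
      (by simp [inner_smul_left, hE]) hρ0 np hv hA0.le (hA v v hv hv)
  have hXX := P_norm_sq U (circ (e 1) (e 2)) (v (α • e 0 + ρ • e 1))
  have hK : ∀ k ∈ circ (e 1) (e 2), U k (P U (circ (e 1) (e 2)) (v (α • e 0 + ρ • e 1)))
      = P U (circ (e 1) (e 2)) (v (α • e 0 + ρ • e 1)) := fun k hk => P_fix U _ _ hk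
  have hL : ∀ k ∈ stab {e 0, e 1, e 2}, U k (P U (circ (e 1) (e 2)) (v (α • e 0 + ρ • e 1)))
      = P U (circ (e 1) (e 2)) (v (α • e 0 + ρ • e 1)) := by
    intro k hk
    apply P_fixed_of
    intro k1 hk1
    rw [hv.eqv k1 _ np]
    apply hv.fixed (by rw [k1.norm_map, np])
    obtain ⟨h1, _⟩ := circ_span (he.1 1) (he.1 2) (by simp [hE]) hk1
    rw [map_add, map_smul, map_smul, circ_fix hk1 (x := e 0) (by simp [hE]) (by simp [hE]), h1]
    rw [map_add, map_smul, map_smul, map_add, map_smul, map_smul,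
      mem_stab.1 hk (e 0) (by simp), mem_stab.1 hk (e 1) (by simp), mem_stab.1 hk (e 2) (by simp)]
  set X := P U (circ (e 1) (e 2)) (v (α • e 0 + ρ • e 1)) with hXd
  rw [hεs] at hge
  have hgX : ‖U g X - X‖ ≤ 2 * σ := by
    have h1 : ‖U g X - X‖ ^ 2 ≤ (2 * σ) ^ 2 := by
      rw [norm_sub_sq_real, (U g).norm_map]
      rw [hε] at hge
      nlinarith
    have h2 := abs_le_of_sq_le_sq h1 (by positivity)
    rwa [abs_of_nonneg (norm_nonneg _)] at h2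
  have hrefl : ∀ w : E, ‖w‖ = 1 → ⟪b i0, w⟫ = 0 → ‖U (refl w) X - X‖ ≤ 16 * σ := by
    intro w hw hw0
    rw [hbi0] at hw0
    have := near_refl he hK hL g1 hgX hw hw0
    linarith
  have hstab : ∀ k ∈ stab {b i0}, ‖U k X - X‖ ≤ n * (16 * σ) := fun k hk =>
    near_stab b (by positivity) i0 hi0 hrefl hk
  have hXZ := P_near U hstab
  have hZX := P_norm_le U (stab {b i0}) X
  have hZfix : ∀ k ∈ stab {b i0}, U k (P U (stab {b i0}) X) = P U (stab {b i0}) X :=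
    fun k hk => P_fix U _ _ hk
  set Z := P U (stab {b i0}) X with hZd
  have hXs : ‖X‖ ≤ √A := Real.le_sqrt_of_sq_le hXA
  have hZp : ⟪Z, v (α • e 0 + ρ • e 1)⟫ ≤ A * ‖Z‖ := by
    by_cases hZ0 : Z = 0
    · rw [hZ0, inner_zero_left, norm_zero, mul_zero]
    · have hZn : 0 < ‖Z‖ := norm_pos_iff.2 hZ0
      obtain ⟨z, hz, hzo⟩ := exists_fam (U := U) (o := b i0) (b.norm_eq_one i0)
        (z := ‖Z‖⁻¹ • Z) (by rw [norm_smul, norm_inv, norm_norm, inv_mul_cancel₀ hZn.ne'])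
        (fun k hk => by rw [map_smul, hZfix k hk])
      have hin : ⟪b i0, α • e 0 + ρ • e 1⟫ = α := by
        rw [hbi0]
        simp only [inner_add_right, inner_smul_right, hE]
        simp
      have hα1 : α < 1 := by nlinarith
      have h1 := hA z v hz hv (b i0) _ (b.norm_eq_one i0) np (by rw [hin]; exact hα1.ne)
        (by rw [hin]; linarith)
      rw [hzo, inner_smul_left] at h1
      simp only [conj_trivial] at h1
      rw [inv_mul_le_iff₀ hZn] at h1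
      linarith
  have h1 : ‖X‖ ^ 2 ≤ A * √A + n * (16 * σ) := by
    have h2 : ⟪X, v (α • e 0 + ρ • e 1)⟫
        = ⟪Z, v (α • e 0 + ρ • e 1)⟫ + ⟪X - Z, v (α • e 0 + ρ • e 1)⟫ := by
      rw [inner_sub_left]; ring
    have h3 := real_inner_le_norm (X - Z) (v (α • e 0 + ρ • e 1))
    rw [hv.nrm _ np, mul_one] at h3
    have h4 : A * ‖Z‖ ≤ A * √A := mul_le_mul_of_nonneg_left (hZX.trans hXs) hA0.le
    rw [hXX, h2]
    linarith
  have h2 : A - ε - σ ^ 2 ≤ ‖X‖ ^ 2 := by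
    have h3 := real_inner_le_norm (U g X) X
    rw [(U g).norm_map] at h3
    nlinarith
  have h3 : κ ≤ 2 * σ + n * (16 * σ) := by
    rw [hκ]
    rw [hε] at h2
    linarith
  nlinarith

/-- Orthogonality for unit families. -/
theorem fam_orth {n : ℕ} (hn : 5 ≤ n) (b : OrthonormalBasis (Fin n) ℝ E)
    (hNC : ∀ w : H, IsCont U ball w → w = 0) {v w : E → H} (hv : Fam U v) (hw : Fam U w)
    {x y : E} (hx : ‖x‖ = 1) (hy : ‖y‖ = 1) (h1 : ⟪x, y⟫ ≠ 1) (h2 : ⟪x, y⟫ ≠ -1) :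
    ⟪v x, w y⟫ = 0 := by
  set S : Set ℝ := {r | ∃ v w : E → H, Fam U v ∧ Fam U w ∧ ∃ x y : E, ‖x‖ = 1 ∧ ‖y‖ = 1 ∧
      ⟪x, y⟫ ≠ 1 ∧ ⟪x, y⟫ ≠ -1 ∧ r = ⟪v x, w y⟫} with hS
  have hgap : ∀ r ∈ S, r ≤ 7 / 8 := by
    rintro r ⟨v, w, hv, hw, x, y, hx, hy, h1, h2, rfl⟩
    exact gap (fun a c => exists_perp (by omega) b a c) hNC hv hw hx hy h1 h2
  have hnonpos : ∀ r ∈ S, r ≤ 0 := by
    intro r hr
    by_contra hpos
    push Not at hpos
    have hbdd : BddAbove S := ⟨7 / 8, fun r hr => hgap r hr⟩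
    have hne : S.Nonempty := ⟨r, hr⟩
    have hA0 : 0 < sSup S := lt_of_lt_of_le hpos (le_csSup hbdd hr)
    have hA1 : sSup S < 1 := lt_of_le_of_lt (csSup_le hne hgap) (by norm_num)
    refine no_extremal (U := U) hn b hA0 hA1 ?_ ?_
    · intro v w hv hw x y hx hy h1 h2
      exact le_csSup hbdd ⟨v, w, hv, hw, x, y, hx, hy, h1, h2, rfl⟩
    · intro δ hδ
      obtain ⟨r, ⟨v, w, hv, hw, x, y, hx, hy, h1, h2, rfl⟩, hr⟩ :=
        exists_lt_of_lt_csSup hne (show sSup S - δ < sSup S by linarith)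
      exact ⟨v, w, hv, hw, x, y, hx, hy, h1, h2, hr⟩
  apply le_antisymm
  · exact hnonpos _ ⟨v, w, hv, hw, x, y, hx, hy, h1, h2, rfl⟩
  · have h3 := hnonpos (-⟪v x, w y⟫)
      ⟨fun x => - v x, w, hv.neg, hw, x, y, hx, hy, h1, h2, by rw [inner_neg_left]⟩
    linarith

end Sph41
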