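import Mathlib

/-!
Isometric representations of a group on a real Hilbert space: invariant vectors in closed convex
hulls of orbits, and vectors which are continuous along a family of neighbourhoods of the identity.
-/

open scoped RealInnerProductSpace
open Set Filter Topology

namespace Sph41

variable {G : Type*} [Group G] {H : Type*} [NormedAddCommGroup H] [InnerProductSpace ℝ H]

/-- The closed convex hull of the `S`-orbit of `u`. -/
def hull (U : G →* (H →ₗᵢ[ℝ] H)) (S : Set G) (u : H) : Set H :=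
  closure (convexHull ℝ ((fun g => U g u) '' S))

variable (U : G →* (H →ₗᵢ[ℝ] H))

theorem U_one (x : H) : U 1 x = x := by simp

theorem U_mul (g h : G) (x : H) : U (g * h) x = U g (U h x) := by simp

theorem U_inv_left (g : G) (x : H) : U g⁻¹ (U g x) = x := by
  rw [← U_mul, inv_mul_cancel, U_one]

theorem U_inv_right (g : G) (x : H) : U g (U g⁻¹ x) = x := by
  rw [← U_mul, mul_inv_cancel, U_one]

theorem inner_U_left (g : G) (x y : H) : ⟪U g x, y⟫ = ⟪x, U g⁻¹ y⟫ := by
  conv_lhs => rw [← U_inv_right U g y]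
  exact (U g).inner_map_map _ _

theorem hull_subset {S : Set G} {u : H} {D : Set H} (hc : IsClosed D) (hv : Convex ℝ D)
    (h : ∀ g ∈ S, U g u ∈ D) : hull U S u ⊆ D := by
  apply closure_minimal _ hc
  apply convexHull_min _ hv
  rintro _ ⟨g, hg, rfl⟩
  exact h g hg

theorem mem_hull {S : Set G} {u : H} {g : G} (hg : g ∈ S) : U g u ∈ hull U S u :=
  subset_closure (subset_convexHull ℝ _ ⟨g, hg, rfl⟩)

theorem isClosed_hull (S : Set G) (u : H) : IsClosed (hull U S u) := isClosed_closure

theorem convex_hull (S : Set G) (u : H) : Convex ℝ (hull U S u) :=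
  (convex_convexHull ℝ _).closure

/-- Elements of norm minimal in a closed convex set. -/
theorem exists_min [CompleteSpace H] {C : Set H} (hne : C.Nonempty) (hc : IsClosed C)
    (hv : Convex ℝ C) : ∃ c ∈ C, ∀ w ∈ C, ‖c‖ ^ 2 + ‖w - c‖ ^ 2 ≤ ‖w‖ ^ 2 := by
  obtain ⟨c, hcC, hmin⟩ := exists_norm_eq_iInf_of_complete_convex hne hc.isComplete hv 0
  refine ⟨c, hcC, fun w hw => ?_⟩
  have h := (norm_eq_iInf_iff_real_inner_le_zero hv hcC).1 hmin w hw
  have h2 : ⟪c, w - c⟫ ≥ 0 := by
    have : (0 : H) - c = -c := by simp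
    rw [this, inner_neg_left] at h
    linarith
  have h3 : w = c + (w - c) := by abel
  have h4 := norm_add_sq_real c (w - c)
  rw [← h3] at h4
  linarith

theorem U_hull {S T : Set G} {u : H} {g : G} (h : ∀ k ∈ S, g * k ∈ T) {w : H}
    (hw : w ∈ hull U S u) : U g w ∈ hull U T u := by
  have : hull U S u ⊆ (fun w => U g w) ⁻¹' (hull U T u) := by
    apply hull_subset U
    · exact (isClosed_hull U T u).preimage (U g).continuous
    · exact (convex_hull U T u).linear_preimage (U g).toLinearMap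
    · intro k hk
      rw [mem_preimage, ← U_mul]
      exact mem_hull U (h k hk)
  exact this hw

/-- Projection onto the invariant vectors of a subgroup. -/
theorem exists_proj [CompleteSpace H] (K : Subgroup G) (u : H) :
    ∃ c : H, (∀ g ∈ K, U g c = c) ∧ (∀ w, (∀ g ∈ K, U g w = w) → ⟪c, w⟫ = ⟪u, w⟫) ∧
      c ∈ hull U (K : Set G) u := by
  obtain ⟨c, hc, hmin⟩ := exists_min (C := hull U (K : Set G) u)
    ⟨_, mem_hull U K.one_mem⟩ (isClosed_hull U _ _) (convex_hull U _ _)
  refine ⟨c, fun g hg => ?_, fun w hw => ?_, hc⟩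
  · have h1 : U g c ∈ hull U (K : Set G) u := U_hull U (fun k hk => K.mul_mem hg hk) hc
    have h2 := hmin _ h1
    rw [(U g).norm_map] at h2
    have h3 : ‖U g c - c‖ ^ 2 ≤ 0 := by linarith
    have h4 : ‖U g c - c‖ = 0 := by
      have := sq_nonneg ‖U g c - c‖
      exact pow_eq_zero_iff (two_ne_zero) |>.1 (le_antisymm h3 this)
    exact sub_eq_zero.1 (norm_eq_zero.1 h4)
  · have : hull U (K : Set G) u ⊆ {z | ⟪z, w⟫ = ⟪u, w⟫} := by
      apply hull_subset U
      · exact isClosed_eq (by fun_prop) continuous_const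
      · have : {z : H | ⟪z, w⟫ = ⟪u, w⟫} = {z | (innerₗ H w) z = ⟪u, w⟫} := by
          ext z; simp [real_inner_comm]
        rw [this]
        exact convex_hyperplane (innerₗ H w).isLinear _
      · intro g hg
        rw [mem_ofPred_eq]
        conv_lhs => rw [← hw g hg]
        exact (U g).inner_map_map _ _
    exact this hc

variable [CompleteSpace H]

/-- The projection of `u` to the `K`-invariant vectors. -/
noncomputable def P (K : Subgroup G) (u : H) : H := (exists_proj U K u).choose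

theorem P_fix (K : Subgroup G) (u : H) {g : G} (hg : g ∈ K) : U g (P U K u) = P U K u :=
  (exists_proj U K u).choose_spec.1 g hg

theorem P_inner (K : Subgroup G) (u : H) {w : H} (hw : ∀ g ∈ K, U g w = w) :
    ⟪P U K u, w⟫ = ⟪u, w⟫ :=
  (exists_proj U K u).choose_spec.2.1 w hw

theorem P_inner' (K : Subgroup G) (u : H) {w : H} (hw : ∀ g ∈ K, U g w = w) :
    ⟪w, P U K u⟫ = ⟪w, u⟫ := by
  rw [real_inner_comm, P_inner U K u hw, real_inner_comm]

theorem P_mem (K : Subgroup G) (u : H) : P U K u ∈ hull U (K : Set G) u :=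
  (exists_proj U K u).choose_spec.2.2

theorem P_unique (K : Subgroup G) {u c : H} (h1 : ∀ g ∈ K, U g c = c)
    (h2 : ∀ w, (∀ g ∈ K, U g w = w) → ⟪c, w⟫ = ⟪u, w⟫) : c = P U K u := by
  have h3 : ∀ g ∈ K, U g (c - P U K u) = c - P U K u := by
    intro g hg
    rw [map_sub, h1 g hg, P_fix U K u hg]
  have h4 : ⟪c - P U K u, c - P U K u⟫ = 0 := by
    rw [inner_sub_left, h2 _ h3, P_inner U K u h3, sub_self]
  exact sub_eq_zero.1 (inner_self_eq_zero.1 h4)

theorem P_norm_sq (K : Subgroup G) (u : H) : ‖P U K u‖ ^ 2 = ⟪P U K u, u⟫ := by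
  rw [← real_inner_self_eq_norm_sq]
  exact P_inner' U K u (fun g hg => P_fix U K u hg)

theorem P_norm_le (K : Subgroup G) (u : H) : ‖P U K u‖ ≤ ‖u‖ := by
  have h1 := P_norm_sq U K u
  have h2 := real_inner_le_norm (P U K u) u
  by_contra h
  push Not at h
  have h0 : 0 < ‖P U K u‖ := lt_of_le_of_lt (norm_nonneg _) h
  nlinarith

theorem P_mem_of {K : Subgroup G} {u : H} {D : Set H} (hc : IsClosed D) (hv : Convex ℝ D)
    (h : ∀ g ∈ K, U g u ∈ D) : P U K u ∈ D :=
  hull_subset U hc hv h (P_mem U K u)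

theorem P_near {K : Subgroup G} {u : H} {ε : ℝ} (h : ∀ g ∈ K, ‖U g u - u‖ ≤ ε) :
    ‖u - P U K u‖ ≤ ε := by
  have : P U K u ∈ Metric.closedBall u ε := by
    apply P_mem_of U Metric.isClosed_closedBall (convex_closedBall _ _)
    intro g hg
    rw [mem_closedBall_iff_norm]
    exact h g hg
  rw [mem_closedBall_iff_norm, norm_sub_rev] at this
  exact this

/-- lower bound of a linear functional on the orbit passes to the projection -/
theorem P_inner_ge {K : Subgroup G} {u z : H} {c : ℝ} (h : ∀ g ∈ K, c ≤ ⟪U g u, z⟫) :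
    c ≤ ⟪P U K u, z⟫ := by
  have : P U K u ∈ {w : H | c ≤ ⟪w, z⟫} := by
    apply P_mem_of U
    · exact isClosed_le continuous_const (by fun_prop)
    · have : {w : H | c ≤ ⟪w, z⟫} = {w | c ≤ (innerₗ H z) w} := by
        ext w; simp [real_inner_comm]
      rw [this]
      exact convex_halfSpace_ge (innerₗ H z).isLinear _
    · exact h
  exact this

/-- vectors fixed by a set of group elements: the projection stays fixed -/
theorem P_fixed_of {K : Subgroup G} {u : H} {g : G} (h : ∀ k ∈ K, U g (U k u) = U k u) :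
    U g (P U K u) = P U K u := by
  have : P U K u ∈ {w : H | U g w = w} := by
    apply P_mem_of U
    · exact isClosed_eq (U g).continuous continuous_id
    · intro x hx y hy a b _ _ _
      simp only [mem_ofPred_eq] at hx hy ⊢
      rw [map_add, map_smul, map_smul, hx, hy]
    · exact h
  exact this

/-! ### Convex combinations of group elements -/

/-- Convex combinations of the operators of `K`. -/
def conv (K : Subgroup G) : Set (H →L[ℝ] H) :=
  convexHull ℝ ((fun g => (U g).toContinuousLinearMap) '' (K : Set G))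

omit [CompleteSpace H] in
theorem conv_subset {K : Subgroup G} {D : Set (H →L[ℝ] H)} (hv : Convex ℝ D)
    (h : ∀ g ∈ K, (U g).toContinuousLinearMap ∈ D) : conv U K ⊆ D := by
  apply convexHull_min _ hv
  rintro _ ⟨g, hg, rfl⟩
  exact h g hg

omit [CompleteSpace H] in
theorem conv_norm {K : Subgroup G} {a : H →L[ℝ] H} (ha : a ∈ conv U K) (w : H) :
    ‖a w‖ ≤ ‖w‖ := by
  have : conv U K ⊆ {a : H →L[ℝ] H | ‖a w‖ ≤ ‖w‖} := by
    apply conv_subset U
    · intro x hx y hy s t hs ht hst
      simp only [mem_ofPred_eq, add_apply, FunLike.coe_smul, Pi.smul_apply] at hx hy ⊢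
      calc ‖s • x w + t • y w‖ ≤ ‖s • x w‖ + ‖t • y w‖ := norm_add_le _ _
        _ = s * ‖x w‖ + t * ‖y w‖ := by
            rw [norm_smul, norm_smul, Real.norm_of_nonneg hs, Real.norm_of_nonneg ht]
        _ ≤ s * ‖w‖ + t * ‖w‖ := by gcongr
        _ = ‖w‖ := by rw [← add_mul, hst, one_mul]
    · intro g _
      simp
  exact this ha

omit [CompleteSpace H] in
theorem conv_fix {K : Subgroup G} {a : H →L[ℝ] H} (ha : a ∈ conv U K) {w : H}
    (hw : ∀ g ∈ K, U g w = w) : a w = w := by
  have : conv U K ⊆ {a : H →L[ℝ] H | a w = w} := by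
    apply conv_subset U
    · intro x hx y hy s t hs ht hst
      simp only [mem_ofPred_eq, add_apply, FunLike.coe_smul, Pi.smul_apply] at hx hy ⊢
      rw [hx, hy, ← add_smul, hst, one_smul]
    · intro g hg
      simpa using hw g hg
  exact this ha

omit [CompleteSpace H] in
theorem conv_mul {K : Subgroup G} {a b : H →L[ℝ] H} (ha : a ∈ conv U K) (hb : b ∈ conv U K) :
    b ∘L a ∈ conv U K := by
  have h1 : ∀ g ∈ K, conv U K ⊆ {a : H →L[ℝ] H | (U g).toContinuousLinearMap ∘L a ∈ conv U K} := by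
    intro g hg
    apply conv_subset U
    · intro x hx y hy s t hs ht hst
      simp only [mem_ofPred_eq] at hx hy ⊢
      have : (U g).toContinuousLinearMap ∘L (s • x + t • y)
          = s • ((U g).toContinuousLinearMap ∘L x) + t • ((U g).toContinuousLinearMap ∘L y) := by
        ext w
        simp
      rw [this]
      exact convex_convexHull ℝ _ hx hy hs ht hst
    · intro k hk
      apply subset_convexHull
      refine ⟨g * k, K.mul_mem hg hk, ?_⟩
      ext w
      simp
  have h2 : conv U K ⊆ {b : H →L[ℝ] H | b ∘L a ∈ conv U K} := by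
    apply conv_subset U
    · intro x hx y hy s t hs ht hst
      simp only [mem_ofPred_eq] at hx hy ⊢
      have : (s • x + t • y) ∘L a = s • (x ∘L a) + t • (y ∘L a) := by
        ext w
        simp
      rw [this]
      exact convex_convexHull ℝ _ hx hy hs ht hst
    · intro g hg
      exact h1 g hg ha
  exact h2 hb

theorem conv_P {K : Subgroup G} {a : H →L[ℝ] H} (ha : a ∈ conv U K) (w : H) :
    P U K (a w) = P U K w := by
  symm
  apply P_unique U K (fun g hg => P_fix U K w hg)
  intro z hz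
  rw [P_inner U K w hz]
  have : conv U K ⊆ {a : H →L[ℝ] H | ⟪w, z⟫ = ⟪a w, z⟫} := by
    apply conv_subset U
    · intro x hx y hy s t hs ht hst
      simp only [mem_ofPred_eq, add_apply, FunLike.coe_smul, Pi.smul_apply] at hx hy ⊢
      rw [inner_add_left, inner_smul_left, inner_smul_left, ← hx, ← hy]
      simp only [conj_trivial]
      rw [← add_mul, hst, one_mul]
    · intro g hg
      simp only [mem_ofPred_eq, LinearIsometry.coe_toContinuousLinearMap]
      conv_rhs => rw [← hz g hg]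
      exact ((U g).inner_map_map _ _).symm
  exact this ha

theorem exists_conv_near (K : Subgroup G) (u : H) {ε : ℝ} (hε : 0 < ε) :
    ∃ a ∈ conv U K, ‖a u - P U K u‖ < ε := by
  have h := P_mem U K u
  rw [hull] at h
  obtain ⟨y, hy, hd⟩ := Metric.mem_closure_iff.1 h ε hε
  have himg : (fun g => U g u) '' (K : Set G)
      = ((ContinuousLinearMap.apply ℝ H u : (H →L[ℝ] H) →L[ℝ] H) : (H →L[ℝ] H) →ₗ[ℝ] H) ''
        ((fun g => (U g).toContinuousLinearMap) '' (K : Set G)) := by
    rw [image_image]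
    rfl
  rw [himg, ← LinearMap.image_convexHull] at hy
  obtain ⟨a, ha, rfl⟩ := hy
  refine ⟨a, ha, ?_⟩
  rw [dist_comm, dist_eq_norm] at hd
  exact hd

/-- The value `⟪a, P b⟫` only depends on the function `k ↦ ⟪a, U k b⟫`. -/
theorem P_inner_congr {K : Subgroup G} {a a' b b' : H}
    (h : ∀ k ∈ K, ⟪a, U k b⟫ = ⟪a', U k b'⟫) : ⟪a, P U K b⟫ = ⟪a', P U K b'⟫ := by
  have hc : conv U K ⊆ {T : H →L[ℝ] H | ⟪a, T b⟫ = ⟪a', T b'⟫} := by
    apply conv_subset U
    · intro x hx y hy s t hs ht hst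
      simp only [mem_ofPred_eq, add_apply, FunLike.coe_smul, Pi.smul_apply] at hx hy ⊢
      rw [inner_add_right, inner_add_right, inner_smul_right, inner_smul_right, inner_smul_right,
        inner_smul_right, hx, hy]
    · intro g hg
      exact h g hg
  have key : ∀ ε > 0, |⟪a, P U K b⟫ - ⟪a', P U K b'⟫| ≤ ε * (‖a‖ + ‖a'‖) := by
    intro ε hε
    obtain ⟨S, hS, hS1⟩ := exists_conv_near U K b hε
    obtain ⟨T, hT, hT1⟩ := exists_conv_near U K (S b') hε
    have hTS : T ∘L S ∈ conv U K := conv_mul U hS hT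
    have e1 : ‖T (S b) - P U K b‖ ≤ ε := by
      have : T (S b) - P U K b = T (S b - P U K b) := by
        rw [map_sub, conv_fix U hT (fun g hg => P_fix U K b hg)]
      rw [this]
      exact (conv_norm U hT _).trans hS1.le
    have e2 : ‖T (S b') - P U K b'‖ ≤ ε := by
      rw [← conv_P U hS b']
      exact hT1.le
    have e3 : ⟪a, T (S b)⟫ = ⟪a', T (S b')⟫ := hc hTS
    have e4 : ⟪a, P U K b⟫ - ⟪a', P U K b'⟫
        = ⟪a', T (S b') - P U K b'⟫ - ⟪a, T (S b) - P U K b⟫ := by
      rw [inner_sub_right, inner_sub_right, e3]; ring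
    rw [e4]
    calc |⟪a', T (S b') - P U K b'⟫ - ⟪a, T (S b) - P U K b⟫|
        ≤ |⟪a', T (S b') - P U K b'⟫| + |⟪a, T (S b) - P U K b⟫| := abs_sub _ _
      _ ≤ ‖a'‖ * ‖T (S b') - P U K b'‖ + ‖a‖ * ‖T (S b) - P U K b‖ :=
          add_le_add (abs_real_inner_le_norm _ _) (abs_real_inner_le_norm _ _)
      _ ≤ ‖a'‖ * ε + ‖a‖ * ε := by gcongr
      _ = ε * (‖a‖ + ‖a'‖) := by ring
  by_contra hne
  have hpos : 0 < |⟪a, P U K b⟫ - ⟪a', P U K b'⟫| := abs_pos.2 (sub_ne_zero.2 hne)
  have h1 := key (|⟪a, P U K b⟫ - ⟪a', P U K b'⟫| / (2 * (‖a‖ + ‖a'‖ + 1))) (by positivity)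
  have h2 : |⟪a, P U K b⟫ - ⟪a', P U K b'⟫| / (2 * (‖a‖ + ‖a'‖ + 1)) * (‖a‖ + ‖a'‖)
      ≤ |⟪a, P U K b⟫ - ⟪a', P U K b'⟫| / 2 := by
    rw [div_mul_eq_mul_div, div_le_div_iff₀ (by positivity) (by norm_num)]
    nlinarith [norm_nonneg a, norm_nonneg a']
  linarith

end Sph41
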