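import Pool.Agent.LibSphere41.Proj

/-!
If an isometric representation has no nonzero continuous vector, then the closed convex hull of
the orbit of any vector under a small neighbourhood of the identity comes close to `0`.
-/

open scoped RealInnerProductSpace
open Set Filter Topology

namespace Sph41

variable {G : Type*} [Group G] {H : Type*} [NormedAddCommGroup H] [InnerProductSpace ℝ H]

/-- A vector `w` is continuous along the neighbourhoods `B δ` of the identity. -/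
def IsCont (U : G →* (H →ₗᵢ[ℝ] H)) (B : ℝ → Set G) (w : H) : Prop :=
  ∀ ε > 0, ∃ δ > 0, ∀ g ∈ B δ, ‖U g w - w‖ ≤ ε

variable (U : G →* (H →ₗᵢ[ℝ] H)) [CompleteSpace H]

theorem exists_small {B : ℝ → Set G} (hB1 : ∀ δ > 0, (1 : G) ∈ B δ)
    (hBmono : ∀ δ > 0, B (δ / 2) ⊆ B δ)
    (hBmul : ∀ δ > 0, ∀ g ∈ B (δ / 2), ∀ h ∈ B (δ / 2), g * h ∈ B δ)
    (hNC : ∀ w : H, IsCont U B w → w = 0) (ξ : H) {δ ε : ℝ} (hδ : 0 < δ) (hε : 0 < ε) :
    ∃ c ∈ hull U (B δ) ξ, ‖c‖ < ε := by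
  by_contra hcon
  push Not at hcon
  set D : ℕ → ℝ := fun k => δ / 2 ^ k with hD
  have hDpos : ∀ k, 0 < D k := fun k => by positivity
  have hDsucc : ∀ k, D (k + 1) = D k / 2 := fun k => by
    simp only [hD, pow_succ]
    field_simp
  have hmono1 : ∀ k, B (D (k + 1)) ⊆ B (D k) := fun k => by
    rw [hDsucc]; exact hBmono _ (hDpos k)
  have hmono : ∀ k j, k ≤ j → B (D j) ⊆ B (D k) := by
    intro k j hkj
    induction j, hkj using Nat.le_induction with
    | base => exact subset_rfl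
    | succ j _ ih => exact (hmono1 j).trans ih
  have hhull : ∀ k j, k ≤ j → hull U (B (D j)) ξ ⊆ hull U (B (D k)) ξ := by
    intro k j hkj
    exact hull_subset U (isClosed_hull U _ _) (convex_hull U _ _)
      (fun g hg => mem_hull U (hmono k j hkj hg))
  have hex : ∀ k, ∃ c ∈ hull U (B (D k)) ξ, ∀ w ∈ hull U (B (D k)) ξ,
      ‖c‖ ^ 2 + ‖w - c‖ ^ 2 ≤ ‖w‖ ^ 2 := fun k =>
    exists_min ⟨_, mem_hull U (hB1 _ (hDpos k))⟩ (isClosed_hull U _ _) (convex_hull U _ _)
  choose c hc hmin using hex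
  have hD0 : D 0 = δ := by simp [hD]
  have hlow : ∀ k, ε ≤ ‖c k‖ := fun k => hcon _ (by
    have := hhull 0 k (Nat.zero_le k) (hc k)
    rwa [hD0] at this)
  have hup : ∀ k, ‖c k‖ ^ 2 ≤ ‖ξ‖ ^ 2 := fun k => by
    have h1 := hmin k _ (mem_hull U (hB1 _ (hDpos k)))
    rw [U_one] at h1
    nlinarith [sq_nonneg ‖ξ - c k‖]
  have hdist : ∀ k j, k ≤ j → ‖c j - c k‖ ^ 2 ≤ ‖c j‖ ^ 2 - ‖c k‖ ^ 2 := fun k j hkj => by
    have := hmin k _ (hhull k j hkj (hc j))
    linarith
  have hmonom : Monotone fun k => ‖c k‖ ^ 2 := by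
    intro k j hkj
    have := hdist k j hkj
    have h2 := sq_nonneg ‖c j - c k‖
    simp only
    linarith
  have hbdd : BddAbove (range fun k => ‖c k‖ ^ 2) :=
    ⟨‖ξ‖ ^ 2, by rintro _ ⟨k, rfl⟩; exact hup k⟩
  set M : ℝ := ⨆ k, ‖c k‖ ^ 2 with hM
  have hMle : ∀ k, ‖c k‖ ^ 2 ≤ M := fun k => le_ciSup hbdd k
  have hMlim : Tendsto (fun k => ‖c k‖ ^ 2) atTop (𝓝 M) := tendsto_atTop_ciSup hmonom hbdd
  have hkey : ∀ η > 0, ∃ k, ∀ j ≥ k, M - ‖c j‖ ^ 2 ≤ η ^ 2 := by
    intro η hη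
    have h1 : ∀ᶠ k in atTop, M - η ^ 2 < ‖c k‖ ^ 2 :=
      hMlim.eventually (lt_mem_nhds (by nlinarith [pow_pos hη 2]))
    obtain ⟨k, hk⟩ := h1.exists_forall_of_atTop
    exact ⟨k, fun j hj => by linarith [hk j hj]⟩
  have hcauchy : CauchySeq c := by
    rw [Metric.cauchySeq_iff']
    intro η hη
    obtain ⟨k, hk⟩ := hkey (η / 2) (by positivity)
    refine ⟨k, fun j hj => ?_⟩
    rw [dist_eq_norm]
    have h1 := hdist k j hj
    have h2 := hk k le_rfl
    have h3 := hMle j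
    have h4 : ‖c j - c k‖ ^ 2 ≤ (η / 2) ^ 2 := by linarith
    have h5 := abs_le_of_sq_le_sq h4 (by positivity)
    rw [abs_of_nonneg (norm_nonneg _)] at h5
    linarith
  obtain ⟨w, hw⟩ := cauchySeq_tendsto_of_complete hcauchy
  have hwε : ε ≤ ‖w‖ := le_of_tendsto_of_tendsto' tendsto_const_nhds hw.norm hlow
  have hw0 : w = 0 := by
    apply hNC
    intro η hη
    obtain ⟨k, hk⟩ := hkey (η / 3) (by positivity)
    have hlimk : ∀ i ≥ k, ‖w - c i‖ ≤ η / 3 := by
      intro i hi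
      have h1 : Tendsto (fun j => ‖c j - c i‖) atTop (𝓝 ‖w - c i‖) :=
        (hw.sub_const _).norm
      apply le_of_tendsto h1
      filter_upwards [eventually_ge_atTop i] with j hj
      have h1 := hdist i j hj
      have h2 := hk i hi
      have h3 := hMle j
      have h4 : ‖c j - c i‖ ^ 2 ≤ (η / 3) ^ 2 := by linarith
      have h5 := abs_le_of_sq_le_sq h4 (by positivity)
      rwa [abs_of_nonneg (norm_nonneg _)] at h5
    refine ⟨D (k + 1), hDpos _, fun g hg => ?_⟩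
    have hmem : U g (c (k + 1)) ∈ hull U (B (D k)) ξ := by
      apply U_hull U _ (hc (k + 1))
      intro h hh
      rw [hDsucc] at hg hh
      exact hBmul _ (hDpos k) g hg h hh
    have h1 := hmin k _ hmem
    rw [(U g).norm_map] at h1
    have h2 := hk k le_rfl
    have h3 := hMle (k + 1)
    have h4 : ‖U g (c (k + 1)) - c k‖ ^ 2 ≤ (η / 3) ^ 2 := by linarith
    have h5 := abs_le_of_sq_le_sq h4 (by positivity)
    rw [abs_of_nonneg (norm_nonneg _)] at h5
    have h6 : U g w - w = U g (w - c (k + 1)) + (U g (c (k + 1)) - c k) + (c k - w) := by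
      rw [map_sub]; abel
    rw [h6]
    calc ‖U g (w - c (k + 1)) + (U g (c (k + 1)) - c k) + (c k - w)‖
        ≤ ‖U g (w - c (k + 1))‖ + ‖U g (c (k + 1)) - c k‖ + ‖c k - w‖ := norm_add₃_le
      _ ≤ η / 3 + η / 3 + η / 3 := by
          have e1 : ‖U g (w - c (k + 1))‖ ≤ η / 3 := by
            rw [(U g).norm_map]
            exact hlimk _ (Nat.le_succ k)
          have e2 : ‖c k - w‖ ≤ η / 3 := by
            rw [norm_sub_rev]
            exact hlimk k le_rfl
          linarith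
      _ = η := by ring
  rw [hw0, norm_zero] at hwε
  linarith

end Sph41
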