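import Pool.Agent.LibSphere41.Circ

/-!
The steps of the extremality argument.
-/

open scoped RealInnerProductSpace
open Set Filter Topology

namespace Sph41

variable {E : Type*} [NormedAddCommGroup E] [InnerProductSpace ℝ E]
variable {H : Type*} [NormedAddCommGroup H] [InnerProductSpace ℝ H] [CompleteSpace H]
variable {U : (E ≃ₗᵢ[ℝ] E) →* (H →ₗᵢ[ℝ] H)}
variable {e : Fin 5 → E} (he : Orthonormal ℝ e)

include he

theorem e_inner (i j : Fin 5) : ⟪e i, e j⟫ = if i = j then (1 : ℝ) else 0 :=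
  orthonormal_iff_ite.1 he i j

theorem inner_XY {v w : E → H} (hv : Fam U v) (hw : Fam U w) {p q : E} (hp : ‖p‖ = 1)
    (hq : ‖q‖ = 1) (hp3 : ⟪e 3, p⟫ = 0) (hp4 : ⟪e 4, p⟫ = 0) (hq1 : ⟪e 1, q⟫ = 0)
    (hq2 : ⟪e 2, q⟫ = 0) :
    ⟪P U (circ (e 1) (e 2)) (v p), P U (circ (e 3) (e 4)) (w q)⟫ = ⟪v p, w q⟫ := by
  have hE := e_inner he
  rw [P_inner, P_inner']
  · intro g hg
    exact hv.fixed hp (circ_fix hg hp3 hp4)
  · intro g hg
    apply P_fixed_of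
    intro k hk
    rw [hw.eqv k q hq]
    apply hw.fixed (by rw [k.norm_map, hq])
    apply circ_fix hg
    · rw [circ_inner hk (by simp [hE]) (by simp [hE]), hq1]
    · rw [circ_inner hk (by simp [hE]) (by simp [hE]), hq2]

theorem norm_comb {i j : Fin 5} (hij : i ≠ j) {x y : ℝ} (h : x ^ 2 + y ^ 2 = 1) :
    ‖x • e i + y • e j‖ = 1 := by
  have hE := e_inner he
  have h1 : ‖x • e i + y • e j‖ ^ 2 = 1 := by
    rw [← real_inner_self_eq_norm_sq]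
    simp only [inner_add_left, inner_add_right, inner_smul_left, inner_smul_right, hE, hij,
      hij.symm, conj_trivial, if_true, if_false]
    nlinarith
  have h0 := norm_nonneg (x • e i + y • e j)
  nlinarith

variable {A : ℝ}

/-- Step 1: an almost extremal pair gives an almost extremal projection. -/
theorem step1 (hA0 : 0 < A)
    (hA : ∀ v w : E → H, Fam U v → Fam U w → ∀ x y : E, ‖x‖ = 1 → ‖y‖ = 1 → ⟪x, y⟫ ≠ 1 →
      ⟪x, y⟫ ≠ -1 → ⟪v x, w y⟫ ≤ A)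
    {v w : E → H} (hv : Fam U v) (hw : Fam U w) {x y : E} (hx : ‖x‖ = 1) (hy : ‖y‖ = 1)
    (h1 : ⟪x, y⟫ ≠ 1) (h2 : ⟪x, y⟫ ≠ -1) {δ : ℝ} (hδ0 : 0 ≤ δ) (hδA : δ ≤ A)
    (hδ : A - δ < ⟪v x, w y⟫) :
    ∃ β ρ : ℝ, 0 < ρ ∧ 0 < β ∧ β ^ 2 + ρ ^ 2 = 1 ∧
      A - 2 * δ ≤ ‖P U (circ (e 1) (e 2)) (v (β • e 0 + ρ • e 1))‖ ^ 2 := by
  have hE := e_inner he
  obtain ⟨t, ht⟩ : ∃ t : ℝ, t = ⟪x, y⟫ := ⟨_, rfl⟩
  have habs : |t| ≤ 1 := by
    have := abs_real_inner_le_norm x y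
    rwa [hx, hy, one_mul, ← ht] at this
  have ht1 : |t| < 1 := by
    rw [← ht] at h1 h2
    rw [abs_le] at habs
    rw [abs_lt]
    exact ⟨lt_of_le_of_ne habs.1 (Ne.symm h2), lt_of_le_of_ne habs.2 h1⟩
  obtain ⟨β, hβ⟩ : ∃ β : ℝ, β = (1 + |t|) / 2 := ⟨_, rfl⟩
  have hβ0 : 0 < β := by rw [hβ]; have := abs_nonneg t; linarith
  have hβ1 : β < 1 := by rw [hβ]; linarith
  have hβt : |t| < β := by rw [hβ]; linarith
  obtain ⟨γ, hγ⟩ : ∃ γ : ℝ, γ = t / β := ⟨_, rfl⟩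
  have hγ1 : |γ| < 1 := by
    rw [hγ, abs_div, abs_of_pos hβ0, div_lt_one hβ0]; exact hβt
  have hγ2 : γ ^ 2 < 1 := by
    rw [← sq_abs]; have := abs_nonneg γ; nlinarith
  have hβ2 : β ^ 2 < 1 := by nlinarith
  obtain ⟨ρ, hρ, hρ0⟩ : ∃ ρ : ℝ, β ^ 2 + ρ ^ 2 = 1 ∧ 0 < ρ :=
    ⟨√(1 - β ^ 2), by rw [Real.sq_sqrt (by linarith)]; ring, Real.sqrt_pos.2 (by linarith)⟩
  obtain ⟨σ, hσ, hσ0⟩ : ∃ σ : ℝ, γ ^ 2 + σ ^ 2 = 1 ∧ 0 < σ :=
    ⟨√(1 - γ ^ 2), by rw [Real.sq_sqrt (by linarith)]; ring, Real.sqrt_pos.2 (by linarith)⟩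
  have hp : ‖β • e 0 + ρ • e 1‖ = 1 := norm_comb he (by decide) hρ
  have hq : ‖γ • e 0 + σ • e 3‖ = 1 := norm_comb he (by decide) hσ
  have hpq : ⟪β • e 0 + ρ • e 1, γ • e 0 + σ • e 3⟫ = t := by
    simp only [inner_add_left, inner_add_right, inner_smul_left, inner_smul_right, hE,
      conj_trivial]
    simp
    rw [hγ]; field_simp
  have hXY := inner_XY he hv hw hp hq
    (by simp [inner_add_right, inner_smul_right, hE])
    (by simp [inner_add_right, inner_smul_right, hE])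
    (by simp [inner_add_right, inner_smul_right, hE])
    (by simp [inner_add_right, inner_smul_right, hE])
  rw [hv.inner_congr hw hp hq hx hy (hpq.trans ht)] at hXY
  have hX : ‖P U (circ (e 1) (e 2)) (v (β • e 0 + ρ • e 1))‖ ^ 2 ≤ A :=
    P_sq_le (he.1 1) (he.1 2) (by simp [hE]) (by simp [inner_smul_left, hE])
      (by simp [inner_smul_left, hE]) hρ0 hp hv hA0.le (hA v v hv hv)
  have hY : ‖P U (circ (e 3) (e 4)) (w (γ • e 0 + σ • e 3))‖ ^ 2 ≤ A :=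
    P_sq_le (he.1 3) (he.1 4) (by simp [hE]) (by simp [inner_smul_left, hE])
      (by simp [inner_smul_left, hE]) hσ0 hq hw hA0.le (hA w w hw hw)
  refine ⟨β, ρ, hρ0, hβ0, hρ, ?_⟩
  set X := P U (circ (e 1) (e 2)) (v (β • e 0 + ρ • e 1)) with hXd
  set Y := P U (circ (e 3) (e 4)) (w (γ • e 0 + σ • e 3)) with hYd
  have h3 := real_inner_le_norm X Y
  rw [hXY] at h3
  have h4 : (A - δ) ^ 2 ≤ ‖X‖ ^ 2 * A := by
    calc (A - δ) ^ 2 ≤ (‖X‖ * ‖Y‖) ^ 2 := pow_le_pow_left₀ (by linarith) (by linarith) 2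
      _ = ‖X‖ ^ 2 * ‖Y‖ ^ 2 := by ring
      _ ≤ _ := by gcongr
  have h5 : (A - 2 * δ) * A ≤ ‖X‖ ^ 2 * A := by nlinarith [sq_nonneg δ]
  exact le_of_mul_le_mul_right h5 hA0

/-- Step 2: two almost extremal values, close in the pseudo-hyperbolic distance. -/
theorem step2 (hA0 : 0 < A)
    (hA : ∀ v w : E → H, Fam U v → Fam U w → ∀ x y : E, ‖x‖ = 1 → ‖y‖ = 1 → ⟪x, y⟫ ≠ 1 →
      ⟪x, y⟫ ≠ -1 → ⟪v x, w y⟫ ≤ A)
    (hnear : ∀ δ > 0, ∃ v w : E → H, Fam U v ∧ Fam U w ∧ ∃ x y : E, ‖x‖ = 1 ∧ ‖y‖ = 1 ∧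
      ⟪x, y⟫ ≠ 1 ∧ ⟪x, y⟫ ≠ -1 ∧ A - δ < ⟪v x, w y⟫) {ε : ℝ} (hε : 0 < ε) (hε1 : ε ≤ 1) :
    ∃ v : E → H, Fam U v ∧ ∃ t s : ℝ, 0 < t ∧ t < s ∧ s < 1 ∧
      2 * (s - t) ^ 2 < (1 - s * t) ^ 2 ∧
      (∀ x y : E, ‖x‖ = 1 → ‖y‖ = 1 → ⟪x, y⟫ = t → A - ε ≤ ⟪v x, v y⟫) ∧
      (∀ x y : E, ‖x‖ = 1 → ‖y‖ = 1 → ⟪x, y⟫ = s → A - ε ≤ ⟪v x, v y⟫) := by
  have hE := e_inner he
  obtain ⟨η, hη⟩ : ∃ η : ℝ, η = ε ^ 2 / 128 := ⟨_, rfl⟩
  have hη0 : 0 < η := by rw [hη]; positivity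
  have hη1 : η ≤ ε / 8 := by rw [hη]; nlinarith
  have hsq : √(2 * η) = ε / 8 := by
    rw [hη, show 2 * (ε ^ 2 / 128) = (ε / 8) ^ 2 by ring, Real.sqrt_sq (by positivity)]
  obtain ⟨δ, hδ⟩ : ∃ δ : ℝ, δ = min (η / 2) A := ⟨_, rfl⟩
  have hδ0 : 0 < δ := by rw [hδ]; exact lt_min (by positivity) hA0
  have hδA : δ ≤ A := by rw [hδ]; exact min_le_right _ _
  have hδη : 2 * δ ≤ η := by
    have : δ ≤ η / 2 := by rw [hδ]; exact min_le_left _ _
    linarith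
  obtain ⟨v, w, hv, hw, x, y, hx, hy, h1, h2, h3⟩ := hnear δ hδ0
  obtain ⟨β, ρ, hρ0, hβ0, hβρ, hP⟩ := step1 he hA0 hA hv hw hx hy h1 h2 hδ0.le hδA h3
  obtain ⟨N, hN⟩ := exists_nat_one_div_lt hη0
  obtain ⟨M, hMN⟩ : ∃ M : ℕ, M = N + 2 := ⟨_, rfl⟩
  have hM2 : 2 ≤ M := by omega
  have hM0 : 0 < M := by omega
  have hMη : (1 : ℝ) / M ≤ η := by
    have h4 : (1 : ℝ) / M ≤ 1 / (N + 1) := by
      apply one_div_le_one_div_of_le (by positivity)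
      rw [hMN]; push_cast; linarith
    linarith
  have hp : ‖β • e 0 + ρ • e 1‖ = 1 := norm_comb he (by decide) hβρ
  have hsum := sum_near (he.1 1) (he.1 2) (by simp [hE]) (by simp [inner_smul_left, hE])
      (by simp [inner_smul_left, hE]) hρ0 hp hv hA0.le (hA v v hv hv) hM0 hP
  have hκ : 2 * δ + √(1 / M + 2 * δ) ≤ ε / 4 := by
    have h4 : √(1 / M + 2 * δ) ≤ √(2 * η) := Real.sqrt_le_sqrt (by linarith)
    rw [hsq] at h4
    linarith
  have hM' : (2 : ℝ) ≤ M := by exact_mod_cast hM2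
  -- the good indices
  set D : ℕ → ℝ := fun j =>
    A - ⟪v (pt (β • e 0) (e 1) (e 2) ρ (cx M j)), v (β • e 0 + ρ • e 1)⟫ with hD
  have hu : ‖β • e 0‖ ^ 2 = β ^ 2 := by
    rw [norm_smul, he.1 0, mul_one, Real.norm_eq_abs, sq_abs]
  have hτ : ∀ j, ⟪pt (β • e 0) (e 1) (e 2) ρ (cx M j), β • e 0 + ρ • e 1⟫
      = β ^ 2 + ρ ^ 2 * cx M j := fun j => by
    rw [inner_pt_base (he.1 1) (he.1 2) (by simp [hE]) (by simp [inner_smul_left, hE])
      (by simp [inner_smul_left, hE]), hu]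
  have hxs : ∀ j < M, (cx M j) ^ 2 ≤ 1 := fun j hj => by
    have h1 := cx_pos M j
    have h2 := cx_le hj
    nlinarith
  have hnp : ∀ j < M, ‖pt (β • e 0) (e 1) (e 2) ρ (cx M j)‖ = 1 := fun j hj =>
    norm_pt (he.1 1) (he.1 2) (by simp [hE]) (by simp [inner_smul_left, hE])
      (by simp [inner_smul_left, hE]) hp hv (hxs j hj)
  have hDnn : ∀ j < M, 0 ≤ D j := by
    intro j hj
    have h4 := hA v v hv hv _ _ (hnp j hj) hp (by
      rw [hτ]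
      have := cx_le hj
      nlinarith) (by
      rw [hτ]
      have := cx_pos M j
      nlinarith [sq_nonneg β, sq_nonneg ρ, mul_nonneg (sq_nonneg ρ) this.le])
    simp only [hD]
    linarith
  have hgood : 1 < ((Finset.range M).filter (fun j => D j ≤ ε)).card := by
    by_contra hcon
    push Not at hcon
    have h4 : ((Finset.range M).filter (fun j => D j ≤ ε)).card
        + ((Finset.range M).filter (fun j => ¬ D j ≤ ε)).card = M := by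
      rw [Finset.card_filter_add_card_filter_not, Finset.card_range]
    have h5 : (M : ℝ) - 1 ≤ ((Finset.range M).filter (fun j => ¬ D j ≤ ε)).card := by
      have : M ≤ ((Finset.range M).filter (fun j => ¬ D j ≤ ε)).card + 1 := by omega
      have h6 : (M : ℝ) ≤ ((Finset.range M).filter (fun j => ¬ D j ≤ ε)).card + 1 := by
        exact_mod_cast this
      linarith
    have h6 : ((Finset.range M).filter (fun j => ¬ D j ≤ ε)).card * ε
        ≤ ∑ j ∈ (Finset.range M).filter (fun j => ¬ D j ≤ ε), D j := by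
      rw [← nsmul_eq_mul]
      apply Finset.card_nsmul_le_sum
      intro j hj
      rw [Finset.mem_filter] at hj
      exact (not_le.1 hj.2).le
    have h7 : ∑ j ∈ (Finset.range M).filter (fun j => ¬ D j ≤ ε), D j
        ≤ ∑ j ∈ Finset.range M, D j := by
      apply Finset.sum_le_sum_of_subset_of_nonneg (Finset.filter_subset _ _)
      intro j hj _
      exact hDnn j (Finset.mem_range.1 hj)
    have h8 : ∑ j ∈ Finset.range M, D j ≤ M * (ε / 4) := by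
      refine hsum.trans ?_
      gcongr
    nlinarith
  obtain ⟨i, hi, j, hj, hij⟩ := Finset.one_lt_card.1 hgood
  rw [Finset.mem_filter, Finset.mem_range] at hi hj
  -- symmetric statement
  have key : ∀ i j : ℕ, i < M → D i ≤ ε → j < M → D j ≤ ε → cx M i < cx M j →
      ∃ v : E → H, Fam U v ∧ ∃ t s : ℝ, 0 < t ∧ t < s ∧ s < 1 ∧
      2 * (s - t) ^ 2 < (1 - s * t) ^ 2 ∧
      (∀ x y : E, ‖x‖ = 1 → ‖y‖ = 1 → ⟪x, y⟫ = t → A - ε ≤ ⟪v x, v y⟫) ∧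
      (∀ x y : E, ‖x‖ = 1 → ‖y‖ = 1 → ⟪x, y⟫ = s → A - ε ≤ ⟪v x, v y⟫) := by
    intro i j hi hDi hj hDj hlt
    have c1 := cx_pos M i
    have c2 := cx_le hj
    obtain ⟨X, hX⟩ : ∃ X, X = cx M i := ⟨_, rfl⟩
    obtain ⟨Y, hY⟩ : ∃ Y, Y = cx M j := ⟨_, rfl⟩
    have hρ2 : 0 < ρ ^ 2 := by positivity
    refine ⟨v, hv, β ^ 2 + ρ ^ 2 * X, β ^ 2 + ρ ^ 2 * Y, ?_, ?_, ?_, ?_, ?_, ?_⟩
    · rw [← hX] at c1; positivity
    · rw [← hX, ← hY] at hlt
      nlinarith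
    · rw [← hY] at c2
      nlinarith
    · rw [← hX] at c1 hlt
      rw [← hY] at c2 hlt
      obtain ⟨r, hr⟩ : ∃ r, r = ρ ^ 2 := ⟨_, rfl⟩
      have hβr : β ^ 2 = 1 - r := by rw [hr]; linarith
      rw [← hr, hβr]
      rw [← hr] at hρ2
      have hr1 : r ≤ 1 := by
        have := sq_nonneg β
        rw [hβr] at this
        linarith
      have e1 : 1 - (1 - r + r * Y) * (1 - r + r * X)
          = r * (1 - X) + r * (1 - Y) * (1 - r * (1 - X)) := by ring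
      have e2 : (1 - r + r * Y) - (1 - r + r * X) = r * (Y - X) := by ring
      rw [e1, e2]
      have e3 : 0 ≤ r * (1 - Y) * (1 - r * (1 - X)) := by
        apply mul_nonneg (mul_nonneg hρ2.le (by linarith))
        nlinarith
      have e4 : r * (Y - X) ≤ r * (1 - X) / 2 := by nlinarith
      have e5 : 0 < r * (Y - X) := mul_pos hρ2 (by linarith)
      have e6 : 0 < r * (1 - X) := mul_pos hρ2 (by linarith)
      nlinarith
    · intro x y hx hy hxy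
      rw [hv.inner_congr hv hx hy (hnp i hi) hp (hxy.trans (by rw [hτ, hX]))]
      simp only [hD] at hDi
      linarith
    · intro x y hx hy hxy
      rw [hv.inner_congr hv hx hy (hnp j hj) hp (hxy.trans (by rw [hτ, hY]))]
      simp only [hD] at hDj
      linarith
  rcases lt_trichotomy (cx M i) (cx M j) with h | h | h
  · exact key i j hi.1 hi.2 hj.1 hj.2 h
  · exact absurd (cx_inj h) hij
  · exact key j i hj.1 hj.2 hi.1 hi.2 h

end Sph41
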