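import Pool.Agent.LibSphere41.Steps

/-!
Step 3: the extremal projection is almost fixed by an isometry mixing the two planes.
-/

open scoped RealInnerProductSpace
open Set Filter Topology

namespace Sph41

variable {E : Type*} [NormedAddCommGroup E] [InnerProductSpace ℝ E]
variable {H : Type*} [NormedAddCommGroup H] [InnerProductSpace ℝ H] [CompleteSpace H]
variable {U : (E ≃ₗᵢ[ℝ] E) →* (H →ₗᵢ[ℝ] H)}

/-- The intermediate value argument choosing the radii. -/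
theorem exists_radii {t s : ℝ} (ht : 0 < t) (hts : t < s) (hs : s < 1)
    (h : 2 * (s - t) ^ 2 < (1 - s * t) ^ 2) :
    ∃ a b : ℝ, t < a ∧ 0 < b ∧ a < 1 ∧ b < 1 ∧ a * s = b * t ∧
      2 * ((1 - a ^ 2) * (1 - b ^ 2)) = (1 - a * b) ^ 2 := by
  obtain ⟨c, hc⟩ : ∃ c : ℝ, c = s / t := ⟨_, rfl⟩
  have hct : c * t = s := by rw [hc]; field_simp
  have hc1 : 1 < c := by rw [hc, one_lt_div ht]; exact hts
  have htc : t < 1 / c := by
    rw [lt_div_iff₀ (by linarith)]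
    linarith
  obtain ⟨F, hF⟩ : ∃ F : ℝ → ℝ,
      F = fun a => 2 * ((1 - a ^ 2) * (1 - (c * a) ^ 2)) - (1 - a * (c * a)) ^ 2 := ⟨_, rfl⟩
  have hcont : ContinuousOn F (Icc t (1 / c)) := by
    rw [hF]; fun_prop
  have hFt : 0 < F t := by
    rw [hF]
    simp only [hct]
    nlinarith
  have hFc : F (1 / c) ≤ 0 := by
    rw [hF]
    simp only
    have : c * (1 / c) = 1 := by field_simp
    rw [this]
    nlinarith [sq_nonneg (1 - 1 / c * 1)]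
  obtain ⟨a, ha, haF⟩ : (0 : ℝ) ∈ F '' Icc t (1 / c) :=
    intermediate_value_Icc' htc.le hcont ⟨hFc, hFt.le⟩
  have hat : t < a := by
    rcases eq_or_lt_of_le ha.1 with h1 | h1
    · rw [← h1] at haF; linarith
    · exact h1
  have ha0 : 0 < a := ht.trans hat
  have ha1 : a < 1 := lt_of_le_of_lt ha.2 (by
    rw [div_lt_one (by linarith)]; exact hc1)
  have hca1 : c * a ≤ 1 := by
    have := ha.2
    rw [le_div_iff₀ (by linarith)] at this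
    linarith
  rw [hF] at haF
  simp only at haF
  have hca : c * a < 1 := by
    rcases eq_or_lt_of_le hca1 with h1 | h1
    · rw [h1] at haF
      nlinarith
    · exact h1
  refine ⟨a, c * a, hat, by positivity, ha1, hca, ?_, by linarith⟩
  rw [← hct]; ring

variable {e : Fin 5 → E} (he : Orthonormal ℝ e)

include he

omit [NormedAddCommGroup H] [InnerProductSpace ℝ H] [CompleteSpace H]

/-- The isometry mixing the two planes. -/
theorem exists_mix : ∃ g : E ≃ₗᵢ[ℝ] E, g (e 0) = e 0 ∧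
    g (e 1) = (1 / √2 : ℝ) • (e 1 + e 3) ∧ g (e 2) = (1 / √2 : ℝ) • (e 2 + e 4) := by
  have hE := e_inner he
  obtain ⟨r, hr⟩ : ∃ r : ℝ, r = 1 / √2 := ⟨_, rfl⟩
  have hr2 : r ^ 2 + r ^ 2 = 1 := by
    rw [hr, div_pow, Real.sq_sqrt (by norm_num)]; norm_num
  rw [← hr]
  have n13 : ‖r • (e 1 + e 3)‖ = 1 := by
    rw [smul_add]; exact norm_comb he (by decide) hr2
  have n24 : ‖r • (e 2 + e 4)‖ = 1 := by
    rw [smul_add]; exact norm_comb he (by decide) hr2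
  refine ⟨refl (e 1 - r • (e 1 + e 3)) * refl (e 2 - r • (e 2 + e 4)), ?_, ?_, ?_⟩
  · rw [mul_app, refl_of_inner (w := e 2 - r • (e 2 + e 4)), refl_of_inner]
    · simp [inner_sub_left, inner_smul_left, inner_add_left, hE]
    · simp [inner_sub_left, inner_smul_left, inner_add_left, hE]
  · rw [mul_app, refl_of_inner (w := e 2 - r • (e 2 + e 4)), refl_sub ((he.1 1).trans n13.symm)]
    simp [inner_sub_left, inner_smul_left, inner_add_left, hE]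
  · rw [mul_app, refl_sub ((he.1 2).trans n24.symm), refl_of_inner]
    simp [inner_sub_left, inner_smul_left, inner_add_left, inner_add_right, inner_smul_right, hE]

variable [NormedAddCommGroup H] [InnerProductSpace ℝ H] [CompleteSpace H]
variable {U : (E ≃ₗᵢ[ℝ] E) →* (H →ₗᵢ[ℝ] H)} {A : ℝ}

/-- Step 3, first claim. -/
theorem step3a (hA0 : 0 < A) {v : E → H} (hv : Fam U v)
    (hA : ∀ x y : E, ‖x‖ = 1 → ‖y‖ = 1 → ⟪x, y⟫ ≠ 1 → ⟪x, y⟫ ≠ -1 → ⟪v x, v y⟫ ≤ A)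
    {t s ε a b a' b' : ℝ} (ht : 0 < t)
    (hF1 : ∀ x y : E, ‖x‖ = 1 → ‖y‖ = 1 → ⟪x, y⟫ = t → A - ε ≤ ⟪v x, v y⟫)
    (hF2 : ∀ x y : E, ‖x‖ = 1 → ‖y‖ = 1 → ⟪x, y⟫ = s → A - ε ≤ ⟪v x, v y⟫)
    (hta : t < a) (hab : a * s = b * t) (ha' : a' ^ 2 = 1 - a ^ 2) (ha'0 : 0 < a')
    (hb' : b' ^ 2 = 1 - b ^ 2) :
    A - ε - √(2 * ε)
      ≤ ⟪P U (circ (e 1) (e 2)) (v (a • e 0 + a' • e 1)), v (b • e 0 + b' • e 1)⟫ := by
  have hE := e_inner he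
  have ha0 : 0 < a := ht.trans hta
  obtain ⟨γ, hγ⟩ : ∃ γ : ℝ, γ = t / a := ⟨_, rfl⟩
  have hγ0 : 0 < γ := by rw [hγ]; positivity
  have hγ1 : γ < 1 := by rw [hγ, div_lt_one ha0]; exact hta
  have hγa : a * γ = t := by rw [hγ]; field_simp
  have hγb : γ * b = s := by
    have : a * (γ * b) = a * s := by rw [hab, ← hγa]; ring
    exact mul_left_cancel₀ ha0.ne' this
  obtain ⟨γ', hγ', hγ'0⟩ : ∃ γ' : ℝ, γ' ^ 2 = 1 - γ ^ 2 ∧ 0 < γ' :=
    ⟨√(1 - γ ^ 2), Real.sq_sqrt (by nlinarith), Real.sqrt_pos.2 (by nlinarith)⟩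
  have npa : ‖a • e 0 + a' • e 1‖ = 1 := norm_comb he (by decide) (by linarith)
  have npb : ‖b • e 0 + b' • e 1‖ = 1 := norm_comb he (by decide) (by linarith)
  have nq : ‖γ • e 0 + γ' • e 3‖ = 1 := norm_comb he (by decide) (by linarith)
  have hXY := inner_XY he hv hv npa nq
    (by simp [inner_add_right, inner_smul_right, hE])
    (by simp [inner_add_right, inner_smul_right, hE])
    (by simp [inner_add_right, inner_smul_right, hE])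
    (by simp [inner_add_right, inner_smul_right, hE])
  have hX : ‖P U (circ (e 1) (e 2)) (v (a • e 0 + a' • e 1))‖ ^ 2 ≤ A :=
    P_sq_le (he.1 1) (he.1 2) (by simp [hE]) (by simp [inner_smul_left, hE])
      (by simp [inner_smul_left, hE]) ha'0 npa hv hA0.le hA
  have hY : ‖P U (circ (e 3) (e 4)) (v (γ • e 0 + γ' • e 3))‖ ^ 2 ≤ A :=
    P_sq_le (he.1 3) (he.1 4) (by simp [hE]) (by simp [inner_smul_left, hE])
      (by simp [inner_smul_left, hE]) hγ'0 nq hv hA0.le hA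
  have hYb : ⟪P U (circ (e 3) (e 4)) (v (γ • e 0 + γ' • e 3)), v (b • e 0 + b' • e 1)⟫
      = ⟪v (γ • e 0 + γ' • e 3), v (b • e 0 + b' • e 1)⟫ := by
    apply P_inner
    intro k hk
    apply hv.fixed npb
    apply circ_fix hk <;> simp [inner_add_right, inner_smul_right, hE]
  set X := P U (circ (e 1) (e 2)) (v (a • e 0 + a' • e 1)) with hXd
  set Y := P U (circ (e 3) (e 4)) (v (γ • e 0 + γ' • e 3)) with hYd
  have h1 : A - ε ≤ ⟪X, Y⟫ := by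
    rw [hXY]
    apply hF1 _ _ npa nq
    simp only [inner_add_left, inner_add_right, inner_smul_left, inner_smul_right, hE,
      conj_trivial]
    simp
    linarith
  have h2 : A - ε ≤ ⟪Y, v (b • e 0 + b' • e 1)⟫ := by
    rw [hYb]
    apply hF2 _ _ nq npb
    simp only [inner_add_left, inner_add_right, inner_smul_left, inner_smul_right, hE,
      conj_trivial]
    simp
    linarith
  have h3 : ‖X - Y‖ ^ 2 ≤ 2 * ε := by
    rw [norm_sub_sq_real]; linarith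
  have h4 : ‖X - Y‖ ≤ √(2 * ε) := Real.le_sqrt_of_sq_le h3
  have h5 : ⟪X, v (b • e 0 + b' • e 1)⟫
      = ⟪Y, v (b • e 0 + b' • e 1)⟫ + ⟪X - Y, v (b • e 0 + b' • e 1)⟫ := by
    rw [inner_sub_left]; ring
  have h6 := abs_real_inner_le_norm (X - Y) (v (b • e 0 + b' • e 1))
  rw [hv.nrm _ npb, mul_one] at h6
  have h7 := neg_abs_le ⟪X - Y, v (b • e 0 + b' • e 1)⟫
  rw [h5]
  linarith

/-- Step 3, second claim. -/
theorem step3b {v : E → H} (hv : Fam U v) {a b a' b' α ρ r x y : ℝ}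
    (npα : ‖α • e 0 + ρ • e 1‖ = 1)
    (npa : ‖a • e 0 + a' • e 1‖ = 1)
    (npb : ‖b • e 0 + b' • e 1‖ = 1)
    (nq : ‖α • e 0 + (ρ * r) • (e 1 + (x • e 3 + y • e 4))‖ = 1)
    (hα : α ^ 2 = a * b) (hab' : a' * b' = ρ ^ 2 * r) :
    ⟪v (α • e 0 + (ρ * r) • (e 1 + (x • e 3 + y • e 4))),
      P U (circ (e 1) (e 2)) (v (α • e 0 + ρ • e 1))⟫
      = ⟪v (b • e 0 + b' • e 1), P U (circ (e 1) (e 2)) (v (a • e 0 + a' • e 1))⟫ := by
  have hE := e_inner he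
  apply P_inner_congr
  intro k hk
  rw [hv.eqv k _ npα, hv.eqv k _ npa]
  apply hv.inner_congr hv nq (by rw [k.norm_map, npα]) npb (by rw [k.norm_map, npa])
  obtain ⟨hk1, hk2⟩ := circ_span (he.1 1) (he.1 2) (by simp [hE]) hk
  rw [map_add, map_add, map_smul, map_smul, map_smul, map_smul,
    circ_fix hk (x := e 0) (by simp [hE]) (by simp [hE]), hk1]
  obtain ⟨x', hx'⟩ : ∃ x' : ℝ, x' = ⟪e 1, k (e 1)⟫ := ⟨_, rfl⟩
  obtain ⟨y', hy'⟩ : ∃ y' : ℝ, y' = ⟪e 2, k (e 1)⟫ := ⟨_, rfl⟩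
  rw [← hx', ← hy']
  simp only [inner_add_left, inner_add_right, inner_smul_left, inner_smul_right, hE, conj_trivial]
  simp
  linear_combination hα - x' * hab'

/-- Step 3, third claim. -/
theorem step3c {v : E → H} (hv : Fam U v) {α ρ r : ℝ}
    (npα : ‖α • e 0 + ρ • e 1‖ = 1)
    {g k : E ≃ₗᵢ[ℝ] E} (g0 : g (e 0) = e 0) (g1 : g (e 1) = r • (e 1 + e 3))
    (g2 : g (e 2) = r • (e 2 + e 4)) (hk : k ∈ circ (e 1) (e 2)) {X : H}
    (hX : ∀ k ∈ circ (e 1) (e 2), U k X = X) :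
    ∃ x y : ℝ, ‖α • e 0 + (ρ * r) • (e 1 + (x • e 3 + y • e 4))‖ = 1 ∧
      ⟪U k (v (α • e 0 + ρ • e 1)), U g⁻¹ X⟫
      = ⟪v (α • e 0 + (ρ * r) • (e 1 + (x • e 3 + y • e 4))), X⟫ := by
  have hE := e_inner he
  obtain ⟨hk1, hk2⟩ := circ_span (he.1 1) (he.1 2) (by simp [hE]) hk
  obtain ⟨x, hx⟩ : ∃ x : ℝ, x = ⟪e 1, k (e 1)⟫ := ⟨_, rfl⟩
  obtain ⟨y, hy⟩ : ∃ y : ℝ, y = ⟪e 2, k (e 1)⟫ := ⟨_, rfl⟩
  rw [← hx, ← hy] at hk1 hk2
  have hkinv : k⁻¹ (x • e 1 + y • e 2) = e 1 := by rw [← hk1, inv_apply_self]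
  have hkc : k⁻¹ ∈ circ (e 1) (e 2) := (circ (e 1) (e 2)).inv_mem hk
  have hgk : g (k (α • e 0 + ρ • e 1))
      = α • e 0 + (ρ * r) • ((x • e 1 + y • e 2) + (x • e 3 + y • e 4)) := by
    rw [map_add, map_smul, map_smul, circ_fix hk (x := e 0) (by simp [hE]) (by simp [hE]), hk1,
      map_add, map_smul, map_smul, map_add, map_smul, map_smul, g0, g1, g2]
    module
  have hkgk : k⁻¹ (g (k (α • e 0 + ρ • e 1)))
      = α • e 0 + (ρ * r) • (e 1 + (x • e 3 + y • e 4)) := by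
    rw [hgk, map_add, map_smul, map_smul, map_add, hkinv,
      circ_fix hkc (x := e 0) (by simp [hE]) (by simp [hE]),
      circ_fix hkc (x := x • e 3 + y • e 4)
        (by simp [inner_add_right, inner_smul_right, hE])
        (by simp [inner_add_right, inner_smul_right, hE])]
  have ngk : ‖g (k (α • e 0 + ρ • e 1))‖ = 1 := by rw [g.norm_map, k.norm_map, npα]
  have nq2 : ‖α • e 0 + (ρ * r) • (e 1 + (x • e 3 + y • e 4))‖ = 1 := by
    rw [← hkgk, LinearIsometryEquiv.norm_map, ngk]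
  refine ⟨x, y, nq2, ?_⟩
  rw [← inner_U_left, hv.eqv k _ npα, hv.eqv g _ (by rw [k.norm_map, npα]), ← hkgk,
    ← hv.eqv k⁻¹ _ ngk]
  conv_rhs => rw [← hX _ hkc]
  rw [(U k⁻¹).inner_map_map]

/-- Step 3. -/
theorem step3 (hA0 : 0 < A) {v : E → H} (hv : Fam U v)
    (hA : ∀ x y : E, ‖x‖ = 1 → ‖y‖ = 1 → ⟪x, y⟫ ≠ 1 → ⟪x, y⟫ ≠ -1 → ⟪v x, v y⟫ ≤ A)
    {t s ε : ℝ} (ht : 0 < t) (hts : t < s) (hs : s < 1)
    (h : 2 * (s - t) ^ 2 < (1 - s * t) ^ 2)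
    (hF1 : ∀ x y : E, ‖x‖ = 1 → ‖y‖ = 1 → ⟪x, y⟫ = t → A - ε ≤ ⟪v x, v y⟫)
    (hF2 : ∀ x y : E, ‖x‖ = 1 → ‖y‖ = 1 → ⟪x, y⟫ = s → A - ε ≤ ⟪v x, v y⟫)
    {g : E ≃ₗᵢ[ℝ] E} (g0 : g (e 0) = e 0) (g1 : g (e 1) = (1 / √2 : ℝ) • (e 1 + e 3))
    (g2 : g (e 2) = (1 / √2 : ℝ) • (e 2 + e 4)) :
    ∃ α ρ : ℝ, 0 < α ∧ 0 < ρ ∧ α ^ 2 + ρ ^ 2 = 1 ∧
      A - ε - √(2 * ε) ≤ ⟪U g (P U (circ (e 1) (e 2)) (v (α • e 0 + ρ • e 1))),
        P U (circ (e 1) (e 2)) (v (α • e 0 + ρ • e 1))⟫ := by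
  obtain ⟨a, b, hta, hb0, ha1, hb1, hab, hrad⟩ := exists_radii ht hts hs h
  have ha0 : 0 < a := ht.trans hta
  have hab1 : a * b < 1 := by nlinarith
  obtain ⟨α, hα, hα0⟩ : ∃ α : ℝ, α ^ 2 = a * b ∧ 0 < α :=
    ⟨√(a * b), Real.sq_sqrt (by positivity), Real.sqrt_pos.2 (by positivity)⟩
  obtain ⟨ρ, hρ, hρ0⟩ : ∃ ρ : ℝ, ρ ^ 2 = 1 - a * b ∧ 0 < ρ :=
    ⟨√(1 - a * b), Real.sq_sqrt (by linarith), Real.sqrt_pos.2 (by linarith)⟩
  obtain ⟨a', ha', ha'0⟩ : ∃ a' : ℝ, a' ^ 2 = 1 - a ^ 2 ∧ 0 < a' :=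
    ⟨√(1 - a ^ 2), Real.sq_sqrt (by nlinarith), Real.sqrt_pos.2 (by nlinarith)⟩
  obtain ⟨b', hb', hb'0⟩ : ∃ b' : ℝ, b' ^ 2 = 1 - b ^ 2 ∧ 0 < b' :=
    ⟨√(1 - b ^ 2), Real.sq_sqrt (by nlinarith), Real.sqrt_pos.2 (by nlinarith)⟩
  obtain ⟨r, hr⟩ : ∃ r : ℝ, r = 1 / √2 := ⟨_, rfl⟩
  have hr0 : 0 < r := by rw [hr]; positivity
  have hr2 : r ^ 2 = 1 / 2 := by
    rw [hr, div_pow, Real.sq_sqrt (by norm_num)]; norm_num
  rw [← hr] at g1 g2
  have hab' : a' * b' = ρ ^ 2 * r := by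
    have h1 : (a' * b') ^ 2 = (ρ ^ 2 * r) ^ 2 := by
      rw [mul_pow, mul_pow, ha', hb', hρ, hr2]
      linarith
    exact (pow_left_inj₀ (by positivity) (by positivity) two_ne_zero).1 h1
  have npα : ‖α • e 0 + ρ • e 1‖ = 1 := norm_comb he (by decide) (by linarith)
  have npa : ‖a • e 0 + a' • e 1‖ = 1 := norm_comb he (by decide) (by linarith)
  have npb : ‖b • e 0 + b' • e 1‖ = 1 := norm_comb he (by decide) (by linarith)
  refine ⟨α, ρ, hα0, hρ0, by linarith, ?_⟩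
  set X := P U (circ (e 1) (e 2)) (v (α • e 0 + ρ • e 1)) with hXd
  have hgX : ⟪U g X, X⟫ = ⟪X, U g⁻¹ X⟫ := inner_U_left U g X X
  rw [hgX]
  apply P_inner_ge
  intro k hk
  obtain ⟨x, y, nq, hxy⟩ := step3c he hv npα g0 g1 g2 hk (X := X)
    (fun k hk => P_fix U _ _ hk)
  rw [hxy, step3b he hv npα npa npb nq hα hab', real_inner_comm]
  exact step3a he hA0 hv hA ht hF1 hF2 hta hab ha' ha'0 hb'

end Sph41
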